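import Pool.Agent.Helper36_F5H.StmtsK2
import Pool.Agent.Helper68_F5.Kc3

/-!
MP_f5cbfa_nt, squad F5H, row K_DUE: the dual step for one angle, from `dual_gen` and `inz_gen`
of `Helper68_F5/Kc3.lean`.
-/

set_option autoImplicit false

open MeasureTheory Complex ComplexConjugate

namespace Pool.Agent.F5H.K2.H30

open Pool.Agent.Helper68_F5 Pool.Agent.F5H.W36 Pool.Agent.F5H.BC Pool.Agent.BTL Pool.Agent.F5S
  Pool.Agent.F5H Pool.Agent.Helper96_GN

theorem due : DUEStmt := by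
  intro T Q A V s h th R₁ al be₀ be₁ hQ hT hQT hA hV2 h21 h10 hV0 hsz hGd hR₁ hR₁V hal hal1 hbe
    hbe1 hbal 𝓚 h𝓚
  classical
  have hT0 : 0 < T := by linarith
  have hQ0 : 0 < Q := by linarith
  have hQ1 : 1 ≤ Q := by linarith
  have F := fm hT hQ hQT (by
    intro l
    fin_cases l
    · show (if s.1 then (1 : ℝ) else -1) ^ 2 = 1
      split_ifs <;> norm_num
    · show (if s.2 then (1 : ℝ) else -1) ^ 2 = 1
      split_ifs <;> norm_num
    · show (1 : ℝ) ^ 2 = 1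
      norm_num) hGd
  have hLx0 : 0 ≤ Lx T := by rw [Lx]; positivity
  have hR₁L : R₁ ≤ Q * Lx T := by linarith
  -- numerical conditions
  have hd : ∀ l, 42 * Q ^ 3 * ‖hG A (r3 h) l‖ ^ 2 ≤ T ^ 2 := by
    intro l
    have h1 := pow_le_pow_left₀ (norm_nonneg _) (F.H2 l) 2
    have h2 := qt hT hQ1 hQT (m := 11) (by norm_num) (a := 277 / 250) (b := 2) (by norm_num)
    have h3 : Lx T ^ 2 = T ^ (277 / 250 : ℝ) := by
      rw [Lx, ← Real.rpow_natCast, ← Real.rpow_mul hT0.le]; norm_num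
    have h4 : (42 : ℝ) ≤ Q ^ 6 := by
      calc (42 : ℝ) ≤ 2 ^ 6 := by norm_num
        _ ≤ Q ^ 6 := pow_le_pow_left₀ (by norm_num) hQ 6
    have h5 : T ^ (2 : ℝ) = T ^ 2 := by rw [← Real.rpow_natCast]; norm_num
    rw [h5] at h2
    calc 42 * Q ^ 3 * ‖hG A (r3 h) l‖ ^ 2 ≤ Q ^ 6 * Q ^ 3 * (Q * Lx T) ^ 2 := by
          refine mul_le_mul ?_ h1 (by positivity) (by positivity)
          exact mul_le_mul_of_nonneg_right h4 (by positivity)
      _ = Q ^ 11 * T ^ (277 / 250 : ℝ) := by rw [mul_pow, h3]; ring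
      _ ≤ T ^ 2 := h2
  have hs1 : ∀ l, R₁ * ‖hG A (r3 h) l‖ ^ 2 ≤ T ^ 2 := by
    intro l
    have h1 := pow_le_pow_left₀ (norm_nonneg _) (F.H2 l) 2
    have h2 := qt hT hQ1 hQT (m := 3) (by norm_num) (a := 831 / 500) (b := 2) (by norm_num)
    have h3 : Lx T ^ 3 = T ^ (831 / 500 : ℝ) := by
      rw [Lx, ← Real.rpow_natCast, ← Real.rpow_mul hT0.le]; norm_num
    have h5 : T ^ (2 : ℝ) = T ^ 2 := by rw [← Real.rpow_natCast]; norm_num
    rw [h5] at h2
    calc R₁ * ‖hG A (r3 h) l‖ ^ 2 ≤ (Q * Lx T) * (Q * Lx T) ^ 2 :=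
          mul_le_mul hR₁L h1 (by positivity) (by positivity)
      _ = Q ^ 3 * Lx T ^ 3 := by ring
      _ ≤ T ^ 2 := by rw [h3]; exact h2
  have hs2 : ∀ l, R₁ * (Q * (Rx T / T)) * ‖hG A (r3 h) l‖ * (4 * Q ^ 4) ≤ T ^ 2 := by
    intro l
    have h1 := F.H2 l
    have h2 := qt hT hQ1 hQT (m := 9) (by norm_num) (a := 723 / 500 + 2 * rho0) (b := 2)
      (by linarith [rho0_small])
    have h3 : Lx T * (Rx T / T) * Lx T = T ^ (723 / 500 + 2 * rho0 : ℝ) := by
      rw [Rx_div hT0, Lx, ← Real.rpow_add hT0, ← Real.rpow_add hT0]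
      congr 1
      ring
    have h4 : (4 : ℝ) ≤ Q ^ 2 := by nlinarith
    have h5 : T ^ (2 : ℝ) = T ^ 2 := by rw [← Real.rpow_natCast]; norm_num
    have h6 : 0 ≤ Rx T / T := by rw [Rx_div hT0]; positivity
    rw [h5] at h2
    calc R₁ * (Q * (Rx T / T)) * ‖hG A (r3 h) l‖ * (4 * Q ^ 4) ≤
        (Q * Lx T) * (Q * (Rx T / T)) * (Q * Lx T) * (Q ^ 2 * Q ^ 4) := by
          have h7 : R₁ * (Q * (Rx T / T)) ≤ (Q * Lx T) * (Q * (Rx T / T)) :=
            mul_le_mul_of_nonneg_right hR₁L (by positivity)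
          have h8 : 4 * Q ^ 4 ≤ Q ^ 2 * Q ^ 4 := mul_le_mul_of_nonneg_right h4 (by positivity)
          exact mul_le_mul (mul_le_mul h7 h1 (norm_nonneg _) (by positivity)) h8 (by positivity)
            (by positivity)
      _ = Q ^ 9 * (Lx T * (Rx T / T) * Lx T) := by ring
      _ ≤ T ^ 2 := by rw [h3]; exact h2
  have h2l : ∀ l : Fin 3, l ≠ 2 → ‖hG A (r3 h) 2‖ ≤ Q ^ 2 * ‖hG A (r3 h) l‖ := by
    intro l hl
    have hV : V 2 ≤ V l := by
      fin_cases l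
      · exact le_trans h21 h10
      · exact h21
      · exact absurd rfl hl
    calc ‖hG A (r3 h) 2‖ ≤ Q * V 2 := (hsz 2).2
      _ ≤ Q * V l := mul_le_mul_of_nonneg_left hV hQ0.le
      _ ≤ Q * (Q * ‖hG A (r3 h) l‖) := mul_le_mul_of_nonneg_left (hsz l).1 hQ0.le
      _ = _ := by ring
  obtain ⟨f1, f2, f3⟩ := dual_gen hQ hT F hA (R₁ := R₁) (al := al) (be0 := be₀) (be1 := be₁)
    (P := Q ^ 3) (by linarith) hal.ne' hbe hd (one_le_pow₀ hQ1)
  have hsub : 𝓚 ⊆ {k : Z6 | ∀ j, |F5.H58.sp (kG A (r3 k))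
      (bWF T R₁ al be₀ be₁ (hG A (r3 h)) (sg s) th j)| ≤ Q ^ 3} := by
    intro k hk
    obtain ⟨k1, k2, k3, k4, k5, k6⟩ := h𝓚 k hk
    intro j
    rcases j with j | j
    · fin_cases j
      · show |F5.H58.sp (kG A (r3 k)) (fun l => ((R₁ / T : ℝ) : ℂ) *
          tv T (hG A (r3 h)) (sg s) th (1, 0, 1) 0 l)| ≤ Q ^ 3
        rw [H58_smul, abs_mul, abs_of_pos (by positivity)]
        calc R₁ / T * |F5.H58.sp (kG A (r3 k)) (tv T (hG A (r3 h)) (sg s) th (1, 0, 1) 0)| ≤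
            R₁ / T * (Q ^ 3 * (T / R₁)) := mul_le_mul_of_nonneg_left k1 (by positivity)
          _ = Q ^ 3 := by field_simp
      · show |F5.H58.sp (kG A (r3 k)) (fun l => ((1 / T : ℝ) : ℂ) *
          tv T (hG A (r3 h)) (sg s) th (1, 0, 0) 0 l)| ≤ Q ^ 3
        rw [H58_smul, abs_mul, abs_of_pos (by positivity)]
        calc 1 / T * |F5.H58.sp (kG A (r3 k)) (tv T (hG A (r3 h)) (sg s) th (1, 0, 0) 0)| ≤
            1 / T * (Q ^ 3 * T) := mul_le_mul_of_nonneg_left k2 (by positivity)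
          _ = Q ^ 3 := by field_simp
      · show |F5.H58.sp (kG A (r3 k)) (fun l => ((1 / T : ℝ) : ℂ) *
          tv T (hG A (r3 h)) (sg s) th (0, 1, 0) 0 l)| ≤ Q ^ 3
        rw [H58_smul, abs_mul, abs_of_pos (by positivity)]
        calc 1 / T * |F5.H58.sp (kG A (r3 k)) (tv T (hG A (r3 h)) (sg s) th (0, 1, 0) 0)| ≤
            1 / T * (Q ^ 3 * T) := mul_le_mul_of_nonneg_left k3 (by positivity)
          _ = Q ^ 3 := by field_simp
    · fin_cases j
      · show |F5.H58.sp (kG A (r3 k)) (fun l =>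
          ((if l = 0 then be₀ else if l = 1 then be₁ else 0 : ℝ) : ℂ) *
          (I * wG T (hG A (r3 h)) (sg s) th l))| ≤ Q ^ 3
        have e : F5.H58.sp (kG A (r3 k)) (fun l =>
            ((if l = 0 then be₀ else if l = 1 then be₁ else 0 : ℝ) : ℂ) *
            (I * wG T (hG A (r3 h)) (sg s) th l)) =
            be₀ * (conj (kG A (r3 k) 0) * (I * wG T (hG A (r3 h)) (sg s) th 0)).re +
            be₁ * (conj (kG A (r3 k) 1) * (I * wG T (hG A (r3 h)) (sg s) th 1)).re := by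
          rw [F5.H58.sp, Fin.sum_univ_three, if_pos rfl, if_neg (by decide : ¬ (1 : Fin 3) = 0),
            if_pos rfl, if_neg (by decide : ¬ (2 : Fin 3) = 0),
            if_neg (by decide : ¬ (2 : Fin 3) = 1), sp_eq, sp_eq, sp_eq, sp_real', sp_real',
            sp_real', sp_eq, sp_eq]
          ring
        rw [e]
        exact k6
      · show |F5.H58.sp (kG A (r3 k)) (fun l => ((if l = 1 then al else 0 : ℝ) : ℂ) *
          (I * wG T (hG A (r3 h)) (sg s) th l))| ≤ Q ^ 3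
        have e : F5.H58.sp (kG A (r3 k)) (fun l => ((if l = 1 then al else 0 : ℝ) : ℂ) *
            (I * wG T (hG A (r3 h)) (sg s) th l)) =
            al * (conj (kG A (r3 k) 1) * (I * wG T (hG A (r3 h)) (sg s) th 1)).re := by
          rw [F5.H58.sp, Fin.sum_univ_three, if_neg (by decide : ¬ (0 : Fin 3) = 1),
            if_pos rfl, if_neg (by decide : ¬ (2 : Fin 3) = 1), sp_eq, sp_eq, sp_eq, sp_real',
            sp_real', sp_real', sp_eq]
          ring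
        rw [e]
        exact k5
      · exact k4
  refine ⟨f1.subset hsub, f2.toFinset, ?_, ?_⟩
  · have hc : (𝓚.ncard : ℝ) ≤ (({k : Z6 | ∀ j, |F5.H58.sp (kG A (r3 k))
        (bWF T R₁ al be₀ be₁ (hG A (r3 h)) (sg s) th j)| ≤ Q ^ 3}).ncard : ℝ) := by
      exact_mod_cast Set.ncard_le_ncard hsub f1
    refine le_trans (le_trans hc f3) (le_of_eq ?_)
    rw [Set.ncard_eq_toFinset_card _ f2, abs_of_pos hal]
    have e : 300 ^ 6 * (Q ^ 3) ^ 6 * (Q ^ 12 / (R₁ * al * |be₀|)) =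
        300 ^ 6 * Q ^ 30 * (1 / (R₁ * (al * |be₀|))) := by
      have h30 : Q ^ 30 = (Q ^ 3) ^ 6 * Q ^ 12 := by ring
      rw [← mul_assoc R₁ al |be₀|, h30]
      ring
    rw [e]
  · intro t ht
    rw [Set.Finite.mem_toFinset] at ht
    refine inz_gen hQ hT hA rfl F h2l (R₁ := R₁) (al := al) (be0 := be₀) (be1 := be₁)
      (by linarith) hbe1 ?_ hs1 hs2 ?_ ?_ ht
    · rw [abs_of_pos hal]; linarith
    · calc Q ^ 2 * (|be₀| * ‖hG A (r3 h) 0‖) ≤ Q ^ 2 * (|be₀| * (Q * V 0)) := by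
            refine mul_le_mul_of_nonneg_left ?_ (by positivity)
            exact mul_le_mul_of_nonneg_left (hsz 0).2 (abs_nonneg _)
        _ = Q ^ 3 * (|be₀| * V 0) := by ring
    · rw [abs_of_pos hal]
      calc Q ^ 2 * ((al + |be₁|) * ‖hG A (r3 h) 1‖) ≤ Q ^ 2 * ((al + |be₁|) * (Q * V 1)) := by
            refine mul_le_mul_of_nonneg_left ?_ (by positivity)
            exact mul_le_mul_of_nonneg_left (hsz 1).2 (by positivity)
        _ = Q ^ 3 * ((|be₁| + al) * V 1) := by ring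

end Pool.Agent.F5H.K2.H30
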