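import Pool.Agent.Helper30_F5K.StmtsR

/-!
MP_f5cbfa_nt, squad F5H, row C_KC2: the final assembly (hedge).
-/

set_option autoImplicit false

open MeasureTheory Complex ComplexConjugate

namespace Pool.Agent.F5H.K2.H30

open Pool.Agent.Helper68_F5 Pool.Agent.F5H.W36 Pool.Agent.F5H.BC Pool.Agent.BTL Pool.Agent.F5S
  Pool.Agent.F5H

/-- final arithmetic -/
theorem fin3 {Q Y G U W m₁ k0 R₁ u z D Ks : ℝ} {c0 c1 c2 c3 : ℕ} (h0 : c0 ≤ 500) (h1 : c1 ≤ 2000)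
    (h2 : c2 ≤ 2000) (h3 : c3 ≤ 200) (hQ : 300 ^ 6 ≤ Q) (hY : 0 ≤ Y) (hG : 1 ≤ G)
    (hm : 0 < m₁) (hk0 : 0 < k0) (hR : 0 < R₁) (hu : 0 < u) (hD : k0 / R₁ ≤ D)
    (hz : z ≤ u ^ 5 * G * k0) (hKs0 : 0 ≤ Ks) (hKs : Ks ≤ Q) (hU : u ^ 2 ≤ U)
    (hW : G ^ 2 ≤ W) :
    Q ^ c3 * (z * m₁ / (R₁ * u ^ 3)) * (Q ^ c0 * Y) +
      Q ^ c3 * (k0 * m₁ / R₁) * (Q ^ c1 * Y * (G ^ 2 * u ^ 2)) +
      Q ^ c3 * (k0 * m₁ / R₁) * (Ks * (Q ^ 8) ^ 6 * (2 * (Q ^ 40 / u))) *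
        (Q ^ c2 * Y * (G ^ 2 * u ^ 3)) ≤
    Q ^ 9500 * (Y * (m₁ * D) * (U * W)) := by
  have hQ1 : 1 ≤ Q := by linarith [show (1 : ℝ) ≤ 300 ^ 6 by norm_num]
  have hQ3 : 3 ≤ Q := by linarith [show (3 : ℝ) ≤ 300 ^ 6 by norm_num]
  have hQ0 : 0 < Q := by linarith
  have hG0 : 0 < G := by linarith
  have hD0 : 0 ≤ D := le_trans (by positivity) hD
  have hU0 : 0 ≤ U := le_trans (by positivity) hU
  have hW0 : 0 ≤ W := le_trans (by positivity) hW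
  obtain ⟨M, hM⟩ : ∃ M, M = Y * (m₁ * D) * (U * W) := ⟨_, rfl⟩
  have hM0 : 0 ≤ M := by rw [hM]; positivity
  have hGG : G ≤ G ^ 2 := le_self_pow₀ hG (by norm_num)
  -- common bound
  have hcom : Y * (m₁ * (k0 / R₁)) * (u ^ 2 * G ^ 2) ≤ M := by
    rw [hM]
    refine mul_le_mul ?_ ?_ (by positivity) (by positivity)
    · exact mul_le_mul_of_nonneg_left (mul_le_mul_of_nonneg_left hD hm.le) hY
    · exact mul_le_mul hU hW (by positivity) hU0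
  have a0 : Q ^ c3 * (z * m₁ / (R₁ * u ^ 3)) * (Q ^ c0 * Y) ≤ Q ^ 2300 * M := by
    have e1 : z * m₁ / (R₁ * u ^ 3) ≤ u ^ 5 * G * k0 * m₁ / (R₁ * u ^ 3) :=
      div_le_div_of_nonneg_right (mul_le_mul_of_nonneg_right hz hm.le) (by positivity)
    have e2 : u ^ 5 * G * k0 * m₁ / (R₁ * u ^ 3) = m₁ * (k0 / R₁) * (u ^ 2 * G) := by
      field_simp
    rw [e2] at e1
    calc Q ^ c3 * (z * m₁ / (R₁ * u ^ 3)) * (Q ^ c0 * Y) ≤
        Q ^ c3 * (m₁ * (k0 / R₁) * (u ^ 2 * G)) * (Q ^ c0 * Y) := by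
          refine mul_le_mul_of_nonneg_right ?_ (by positivity)
          exact mul_le_mul_of_nonneg_left e1 (by positivity)
      _ = Q ^ (c3 + c0) * (Y * (m₁ * (k0 / R₁)) * (u ^ 2 * G)) := by rw [pow_add]; ring
      _ ≤ Q ^ 2300 * (Y * (m₁ * (k0 / R₁)) * (u ^ 2 * G ^ 2)) := by
          refine mul_le_mul (pow_le_pow_right₀ hQ1 (by omega)) ?_ (by positivity) (by positivity)
          refine mul_le_mul_of_nonneg_left ?_ (by positivity)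
          exact mul_le_mul_of_nonneg_left hGG (by positivity)
      _ ≤ Q ^ 2300 * M := mul_le_mul_of_nonneg_left hcom (by positivity)
  have a1 : Q ^ c3 * (k0 * m₁ / R₁) * (Q ^ c1 * Y * (G ^ 2 * u ^ 2)) ≤ Q ^ 2300 * M := by
    calc Q ^ c3 * (k0 * m₁ / R₁) * (Q ^ c1 * Y * (G ^ 2 * u ^ 2)) =
        Q ^ (c3 + c1) * (Y * (m₁ * (k0 / R₁)) * (u ^ 2 * G ^ 2)) := by rw [pow_add]; ring
      _ ≤ Q ^ 2300 * M :=
          mul_le_mul (pow_le_pow_right₀ hQ1 (by omega)) hcom (by positivity) (by positivity)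
  have a2 : Q ^ c3 * (k0 * m₁ / R₁) * (Ks * (Q ^ 8) ^ 6 * (2 * (Q ^ 40 / u))) *
      (Q ^ c2 * Y * (G ^ 2 * u ^ 3)) ≤ Q ^ 2300 * M := by
    have e3 : Ks * (Q ^ 8) ^ 6 * (2 * (Q ^ 40 / u)) ≤ Q ^ 90 / u := by
      have : Ks * (Q ^ 8) ^ 6 * (2 * (Q ^ 40 / u)) = Ks * 2 * (Q ^ 88 / u) := by ring
      rw [this]
      have h5 : Ks * 2 ≤ Q * Q := mul_le_mul hKs (by linarith) (by norm_num) hQ0.le
      calc Ks * 2 * (Q ^ 88 / u) ≤ Q * Q * (Q ^ 88 / u) :=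
            mul_le_mul_of_nonneg_right h5 (by positivity)
        _ = Q ^ 90 / u := by ring
    calc Q ^ c3 * (k0 * m₁ / R₁) * (Ks * (Q ^ 8) ^ 6 * (2 * (Q ^ 40 / u))) *
        (Q ^ c2 * Y * (G ^ 2 * u ^ 3)) ≤ Q ^ c3 * (k0 * m₁ / R₁) * (Q ^ 90 / u) *
        (Q ^ c2 * Y * (G ^ 2 * u ^ 3)) := by
          refine mul_le_mul_of_nonneg_right ?_ (by positivity)
          exact mul_le_mul_of_nonneg_left e3 (by positivity)
      _ = Q ^ (c3 + 90 + c2) * (Y * (m₁ * (k0 / R₁)) * (u ^ 2 * G ^ 2)) := by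
          rw [pow_add, pow_add]; field_simp
      _ ≤ Q ^ 2300 * M :=
          mul_le_mul (pow_le_pow_right₀ hQ1 (by omega)) hcom (by positivity) (by positivity)
  have a3 : 3 * (Q ^ 2300 * M) ≤ Q ^ 9500 * M := by
    have : 3 * Q ^ 2300 ≤ Q ^ 9500 := by
      calc 3 * Q ^ 2300 ≤ Q * Q ^ 2300 := mul_le_mul_of_nonneg_right hQ3 (by positivity)
        _ = Q ^ 2301 := by ring
        _ ≤ Q ^ 9500 := pow_le_pow_right₀ hQ1 (by norm_num)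
    calc 3 * (Q ^ 2300 * M) = (3 * Q ^ 2300) * M := by ring
      _ ≤ _ := mul_le_mul_of_nonneg_right this hM0
  rw [← hM]
  linarith

/-- the triples of the finite family -/
theorem hf_of {T Q : ℝ} {A : ℝ × ℝ × ℝ} {V : Fin 3 → ℝ} {k0 del : ℝ} {s : Bool × Bool} {h k : Z6}
    (hQ : 2 ≤ Q) (hne : (SK T Q A V k0 del s h k).Nonempty) : HF Q A V h := by
  obtain ⟨θ, _, hsz, _⟩ := hne
  have hQ0 : 0 < Q := by linarith
  have hQ1 : 1 ≤ Q := by linarith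
  have hnrm : ∀ (x : ℤ × ℤ), ‖gQ Q A x‖ = Q * ‖gA A (rc x)‖ := by
    intro x
    rw [gQ_apply, norm_mul, Complex.norm_real, Real.norm_eq_abs, abs_of_pos hQ0]
  have e0 : ‖hG A (r3 h) 0‖ = ‖gA A (rc h.1)‖ := rfl
  have e1 : ‖hG A (r3 h) 1‖ = ‖gA A (rc h.2.1)‖ := rfl
  have e2 : ‖hG A (r3 h) 2‖ = ‖gA A (rc h.2.2)‖ := rfl
  have s0 := hsz 0
  have s1 := hsz 1
  have s2 := hsz 2
  rw [e0] at s0
  rw [e1] at s1
  rw [e2] at s2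
  have hup : ∀ {x y : ℝ}, x ≤ Q * y → Q * x ≤ Q ^ 2 * y := by
    intro x y hxy
    calc Q * x ≤ Q * (Q * y) := mul_le_mul_of_nonneg_left hxy hQ0.le
      _ = _ := by ring
  have hdn : ∀ {x y : ℝ}, 0 ≤ y → x ≤ Q * y → Q ^ 2 * x ≤ Q ^ 8 * (Q * y) := by
    intro x y hy hxy
    calc Q ^ 2 * x ≤ Q ^ 2 * (Q * y) := mul_le_mul_of_nonneg_left hxy (by positivity)
      _ ≤ Q ^ 8 * (Q * y) := by
          refine mul_le_mul_of_nonneg_right ?_ (by positivity)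
          exact pow_le_pow_right₀ hQ1 (by norm_num)
  unfold HF
  rw [hnrm, hnrm, hnrm]
  exact ⟨hup s0.2, hup s1.2, hup s2.2, hdn (norm_nonneg _) s1.1, hdn (norm_nonneg _) s2.1⟩

end Pool.Agent.F5H.K2.H30
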