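import Pool.Agent.Helper30_F5K.Kc2a

/-!
MP_f5cbfa_nt, squad F5H, row C_KC2: the final assembly (hedge), part 2.
-/

set_option autoImplicit false

open MeasureTheory Complex ComplexConjugate

namespace Pool.Agent.F5H.K2.H30

open Pool.Agent.Helper68_F5 Pool.Agent.F5H.W36 Pool.Agent.F5H.BC Pool.Agent.BTL Pool.Agent.F5S
  Pool.Agent.F5H

/-- the three families -/
noncomputable def Tt3 (T Q : ℝ) (A : ℝ × ℝ × ℝ) (V : Fin 3 → ℝ) (k0 u z R₁ : ℝ) (i : Fin 3)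
    (h t : Z6) : Set ℝ :=
  if i = 0 then Hit (Q ^ 8) ((Q * T) ^ 2) 0 (Q ^ 2 * (Rx T / T)) (Q * R₁)
      (Q ^ 3 * max 1 (V 0 / z)) (Q ^ 3 * max 1 (V 1 / z)) (gQ Q A h.1) (gQ Q A h.2.1)
      (gQ Q A h.2.2) (gQ Q A t.1) (gQ Q A t.2.1) (gQ Q A t.2.2)
  else if i = 1 then
    (if Q ^ 40 / u ≤ ‖gQ Q A t.1‖ then HitW (Q ^ 8) ((Q * T) ^ 2) (Q ^ 2 * (Rx T / T)) (Q * R₁)
      (Q ^ 3 * max 1 (V 0 / k0)) (Q ^ 3 * max 1 (V 1 / k0)) (u ^ 3 * (Q ^ 2 * V 0) ^ 3)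
      (gQ Q A h.1) (gQ Q A h.2.1) (gQ Q A h.2.2) (gQ Q A t.1) (gQ Q A t.2.1) (gQ Q A t.2.2)
    else ∅)
  else
    (if t = 0 then Wt (Q ^ 8) ((Q * T) ^ 2) (Q ^ 2 * (Rx T / T)) (u ^ 3 * (Q ^ 2 * V 0) ^ 3)
      (gQ Q A h.1) (gQ Q A h.2.1) (gQ Q A h.2.2) else ∅)

/-- pointwise bound -/
theorem pt3 {Ks : ℝ} (hsmt : ∀ g : ℤ × ℤ →+ ℂ, Sep 1 g → ∀ (P R₀ : ℝ) (e₁ e₂ e₃ : ℂ),
      1 ≤ P → 1 ≤ R₀ → ‖e₁‖ = 1 → ‖e₂‖ = 1 → ‖e₃‖ = 1 → ∀ 𝓥 : Finset T3,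
      (∀ v ∈ 𝓥, ∃ c : ℝ, |c| ≤ R₀ ∧ Near P c e₁ e₂ e₃ (g v.1) (g v.2.1) (g v.2.2)) →
      (𝓥.card : ℝ) ≤ Ks * P ^ 6 * R₀) {c3 : ℕ}
    {T Q : ℝ} {A : ℝ × ℝ × ℝ} {V : Fin 3 → ℝ} {k0 del u z m₁ R₁ : ℝ} {s : Bool × Bool}
    {h : Z6} {th : ℝ} (p : Par T Q V k0 del u z m₁ R₁) (hA : A ∈ KM Q) (𝓥 : Finset Z6)
    (h0 : (0 : Z6) ∈ 𝓥)
    (hV : ∀ (t : Z6) (e₁ e₂ : ℂ) (κ₁ κ₂ κ₃ ω₁ ω₂ : ℝ),
      Pt (Q ^ 8) ((Q * T) ^ 2) 0 (Q ^ 2 * (Rx T / T)) (gQ Q A h.1) (gQ Q A h.2.1) (gQ Q A h.2.2)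
        e₁ e₂ (ee th) κ₁ κ₂ κ₃ →
      InZ (Q ^ 8) ((Q * T) ^ 2) (Q * R₁) ω₁ ω₂
        (gQ Q A h.1) (gQ Q A h.2.1) (gQ Q A h.2.2) e₁ e₂ (ee th) κ₁ κ₂ κ₃ (gQ Q A t.1)
        (gQ Q A t.2.1) (gQ Q A t.2.2) → t ∈ 𝓥)
    (𝓚 : Finset Z6)
    (hpw : 𝓚.Nonempty → (∃ Z : Finset Z6, (𝓚.card : ℝ) ≤ Q ^ c3 * (z * m₁ / (R₁ * u ^ 3)) *
        Z.card ∧ ∀ t ∈ Z,
      th ∈ Hit (Q ^ 8) ((Q * T) ^ 2) 0 (Q ^ 2 * (Rx T / T)) (Q * R₁)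
        (Q ^ 3 * max 1 (V 0 / z)) (Q ^ 3 * max 1 (V 1 / z)) (gQ Q A h.1) (gQ Q A h.2.1)
        (gQ Q A h.2.2) (gQ Q A t.1) (gQ Q A t.2.1) (gQ Q A t.2.2)) ∨
      (th ∈ Set.Ioc (-Real.pi) Real.pi ∧ ∃ (e₁ e₂ : ℂ) (κ₁ κ₂ κ₃ : ℝ),
        Pt (Q ^ 8) ((Q * T) ^ 2) 0 (Q ^ 2 * (Rx T / T)) (gQ Q A h.1) (gQ Q A h.2.1)
          (gQ Q A h.2.2) e₁ e₂ (ee th) κ₁ κ₂ κ₃ ∧
        |Gm e₁ e₂ (ee th) (gQ Q A h.1) (gQ Q A h.2.1) (gQ Q A h.2.2)| ≤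
          u ^ 3 * (Q ^ 2 * V 0) ^ 3 ∧
        ∃ Z : Finset Z6, (𝓚.card : ℝ) ≤ Q ^ c3 * (k0 * m₁ / R₁) * Z.card ∧ ∀ t ∈ Z,
          InZ (Q ^ 8) ((Q * T) ^ 2) (Q * R₁) (Q ^ 3 * max 1 (V 0 / k0))
          (Q ^ 3 * max 1 (V 1 / k0)) (gQ Q A h.1) (gQ Q A h.2.1) (gQ Q A h.2.2) e₁ e₂ (ee th)
          κ₁ κ₂ κ₃ (gQ Q A t.1) (gQ Q A t.2.1) (gQ Q A t.2.2))) :
    ∃ N : Fin 3 → ℕ, (𝓚.card : ℝ) ≤ ∑ i ∈ (Finset.univ : Finset (Fin 3)),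
      (![Q ^ c3 * (z * m₁ / (R₁ * u ^ 3)), Q ^ c3 * (k0 * m₁ / R₁),
        Q ^ c3 * (k0 * m₁ / R₁) * (Ks * (Q ^ 8) ^ 6 * (2 * (Q ^ 40 / u)))] : Fin 3 → ℝ) i *
        (N i : ℝ) ∧
      ∀ i ∈ (Finset.univ : Finset (Fin 3)), ∃ 𝓣 : Finset Z6, 𝓣 ⊆ 𝓥 ∧
        (∀ t ∈ 𝓣, th ∈ Tt3 T Q A V k0 u z R₁ i h t) ∧ N i ≤ 𝓣.card := by
  classical
  have hQ1 : 1 ≤ Q := by linarith [p.hQ, show (1 : ℝ) ≤ 300 ^ 6 by norm_num]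
  have hQ0 : 0 < Q := by linarith
  have hu0 := p.u0
  have hu1 := p.u1
  have hsep := sep_gQ hQ1 hA
  have hC0 : 0 ≤ Q ^ c3 * (k0 * m₁ / R₁) := by
    have h1 := p.R1
    have h2 := p.k1
    have h3 : 0 ≤ m₁ := by
      rw [p.hm]
      refine le_min (by linarith) ?_
      have := p.v2
      have h4 : 0 ≤ Q ^ 1000 := by positivity
      linarith [p.v21]
    positivity
  by_cases hne : 𝓚.Nonempty
  swap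
  · rw [Finset.not_nonempty_iff_eq_empty] at hne
    refine ⟨fun _ => 0, ?_, fun i _ => ⟨∅, Finset.empty_subset _, by simp, by simp⟩⟩
    rw [hne]
    simp
  rcases hpw hne with ⟨Z, hZ, hZt⟩ | ⟨hth, e₁, e₂, κ₁, κ₂, κ₃, pt, hG, Z, hZ, hZt⟩
  · refine ⟨fun i => if i = 0 then Z.card else 0, ?_, ?_⟩
    · rw [Fin.sum_univ_three]
      simpa using hZ
    · intro i _
      by_cases hi : i = 0
      · refine ⟨Z, ?_, ?_, ?_⟩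
        · intro t ht
          obtain ⟨_, e₁, e₂, κ₁, κ₂, κ₃, pt, hz⟩ := hZt t ht
          exact hV t e₁ e₂ κ₁ κ₂ κ₃ _ _ pt hz
        · intro t ht
          rw [Tt3, if_pos hi]
          exact hZt t ht
        · show (if i = 0 then Z.card else 0) ≤ Z.card
          rw [if_pos hi]
      · refine ⟨∅, Finset.empty_subset _, by simp, ?_⟩
        show (if i = 0 then Z.card else 0) ≤ _
        rw [if_neg hi]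
        exact Nat.zero_le _
  · obtain ⟨Zl, hZl⟩ : ∃ Zl : Finset Z6, Zl = Z.filter (fun t => Q ^ 40 / u ≤ ‖gQ Q A t.1‖) :=
      ⟨_, rfl⟩
    obtain ⟨Zs, hZs⟩ : ∃ Zs : Finset Z6,
      Zs = Z.filter (fun t => ¬ Q ^ 40 / u ≤ ‖gQ Q A t.1‖) := ⟨_, rfl⟩
    have hcard : (Z.card : ℝ) = Zl.card + Zs.card := by
      rw [hZl, hZs]
      have := (Finset.card_filter_add_card_filter_not
        (s := Z) (fun t : Z6 => Q ^ (40 : ℕ) / u ≤ ‖gQ Q A t.1‖)).symm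
      exact_mod_cast this
    have hsm : (Zs.card : ℝ) ≤ Ks * (Q ^ 8) ^ 6 * (2 * (Q ^ 40 / u)) := by
      have hu40 : Q ^ 8 ≤ Q ^ 40 / u := by
        rw [le_div_iff₀ hu0]
        calc Q ^ 8 * u ≤ Q ^ 8 * 1 := mul_le_mul_of_nonneg_left hu1 (by positivity)
          _ = Q ^ 8 := mul_one _
          _ ≤ Q ^ 40 := pow_le_pow_right₀ hQ1 (by norm_num)
      have h18 : 1 ≤ Q ^ 8 := one_le_pow₀ hQ1
      refine hsmt (gQ Q A) hsep (Q ^ 8) (2 * (Q ^ 40 / u)) e₁ e₂ (ee th) h18 (by linarith)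
        pt.he₁ pt.he₂ pt.he₃ Zs ?_
      intro v hv
      rw [hZs, Finset.mem_filter] at hv
      obtain ⟨hvZ, hvs⟩ := hv
      obtain ⟨c, _, a₁, a₂, a₃, _⟩ := hZt v hvZ
      refine ⟨c, ?_, ⟨a₁, a₂, a₃⟩⟩
      have h1 : ‖(c : ℂ) * e₁‖ = |c| := by
        rw [norm_mul, pt.he₁, mul_one, Complex.norm_real, Real.norm_eq_abs]
      have h2 := abs_norm_sub_norm_le (gQ Q A v.1) ((c : ℂ) * e₁)
      rw [h1] at h2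
      have h3 := (abs_le.1 (le_trans h2 a₁)).1
      rw [not_le] at hvs
      linarith
    refine ⟨fun i => if i = 0 then 0 else if i = 1 then Zl.card else 1, ?_, ?_⟩
    · rw [Fin.sum_univ_three]
      have e : (![Q ^ c3 * (z * m₁ / (R₁ * u ^ 3)), Q ^ c3 * (k0 * m₁ / R₁),
        Q ^ c3 * (k0 * m₁ / R₁) * (Ks * (Q ^ 8) ^ 6 * (2 * (Q ^ 40 / u)))] : Fin 3 → ℝ) 0 *
          (((if (0 : Fin 3) = 0 then 0 else if (0 : Fin 3) = 1 then Zl.card else 1 : ℕ)) : ℝ) +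
        (![Q ^ c3 * (z * m₁ / (R₁ * u ^ 3)), Q ^ c3 * (k0 * m₁ / R₁),
        Q ^ c3 * (k0 * m₁ / R₁) * (Ks * (Q ^ 8) ^ 6 * (2 * (Q ^ 40 / u)))] : Fin 3 → ℝ) 1 *
          (((if (1 : Fin 3) = 0 then 0 else if (1 : Fin 3) = 1 then Zl.card else 1 : ℕ)) : ℝ) +
        (![Q ^ c3 * (z * m₁ / (R₁ * u ^ 3)), Q ^ c3 * (k0 * m₁ / R₁),
        Q ^ c3 * (k0 * m₁ / R₁) * (Ks * (Q ^ 8) ^ 6 * (2 * (Q ^ 40 / u)))] : Fin 3 → ℝ) 2 *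
          (((if (2 : Fin 3) = 0 then 0 else if (2 : Fin 3) = 1 then Zl.card else 1 : ℕ)) : ℝ) =
        Q ^ c3 * (k0 * m₁ / R₁) * Zl.card +
          Q ^ c3 * (k0 * m₁ / R₁) * (Ks * (Q ^ 8) ^ 6 * (2 * (Q ^ 40 / u))) := by
        simp
      refine le_trans hZ (le_trans (le_of_eq ?_) (le_trans (add_le_add_right
        (mul_le_mul_of_nonneg_left hsm hC0) (Q ^ c3 * (k0 * m₁ / R₁) * Zl.card)) (le_of_eq ?_)))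
      · rw [hcard]; ring
      · exact e.symm
    · intro i _
      by_cases hi : i = 0
      · refine ⟨∅, Finset.empty_subset _, by simp, ?_⟩
        show (if i = 0 then 0 else if i = 1 then Zl.card else 1) ≤ _
        rw [if_pos hi]
        exact Nat.zero_le _
      by_cases hi1 : i = 1
      · refine ⟨Zl, ?_, ?_, ?_⟩
        · intro t ht
          rw [hZl, Finset.mem_filter] at ht
          exact hV t e₁ e₂ κ₁ κ₂ κ₃ _ _ pt (hZt t ht.1)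
        · intro t ht
          rw [hZl, Finset.mem_filter] at ht
          rw [Tt3, if_neg hi, if_pos hi1, if_pos ht.2]
          exact ⟨hth, e₁, e₂, κ₁, κ₂, κ₃, pt, hZt t ht.1, hG⟩
        · show (if i = 0 then 0 else if i = 1 then Zl.card else 1) ≤ _
          rw [if_neg hi, if_pos hi1]
      · refine ⟨{0}, by rw [Finset.singleton_subset_iff]; exact h0, ?_, ?_⟩
        · intro t ht
          rw [Finset.mem_singleton] at ht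
          rw [Tt3, if_neg hi, if_neg hi1, if_pos ht]
          exact ⟨hth, e₁, e₂, κ₁, κ₂, κ₃, pt, hG⟩
        · show (if i = 0 then 0 else if i = 1 then Zl.card else 1) ≤ _
          rw [if_neg hi, if_neg hi1, Finset.card_singleton]

end Pool.Agent.F5H.K2.H30
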