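import Pool.Agent.Helper30_F5K.Kc2b

/-!
MP_f5cbfa_nt, squad F5H, row C_KC2: the final assembly (hedge), part 3.
-/

set_option autoImplicit false

open MeasureTheory Complex ComplexConjugate

namespace Pool.Agent.F5H.K2.H30

open Pool.Agent.Helper68_F5 Pool.Agent.F5H.W36 Pool.Agent.F5H.BC Pool.Agent.BTL Pool.Agent.F5S
  Pool.Agent.F5H

theorem kc2_of (hpar : PARStmt) (hhts : HTSStmt) (hwts : WTSStmt) (hdts : DTSStmt)
    (hpwt : PWTStmt) (hsmt : SMTStmt) : KC2Stmt := by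
  classical
  obtain ⟨cp, hcp, hpar⟩ := hpar
  obtain ⟨c0, hc0, Q0, hhts⟩ := hhts
  obtain ⟨c1, hc1, Q1, hwts⟩ := hwts
  obtain ⟨c2, hc2, Q2, hdts⟩ := hdts
  obtain ⟨c3, hc3, hpwt⟩ := hpwt
  obtain ⟨Ks, hKs, hsmt⟩ := hsmt
  refine ⟨9500, by norm_num, max (300 ^ 6) (max Q0 (max Q1 (max Q2 Ks))),
    le_trans (by norm_num) (le_max_left _ _), ?_⟩
  intro T Q hQm hlog hQT A V k0 del s hA hv2 h21 h10 hV0 a0 a1 a2 ak hkV hdel hd1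
  have hQ : 300 ^ 6 ≤ Q := le_trans (le_max_left _ _) hQm
  have hm1 := le_trans (le_max_right _ _) hQm
  have hQ0' : Q0 ≤ Q := le_trans (le_max_left _ _) hm1
  have hm2 := le_trans (le_max_right _ _) hm1
  have hQ1' : Q1 ≤ Q := le_trans (le_max_left _ _) hm2
  have hm3 := le_trans (le_max_right _ _) hm2
  have hQ2' : Q2 ≤ Q := le_trans (le_max_left _ _) hm3
  have hKQ : Ks ≤ Q := le_trans (le_max_right _ _) hm3
  have hQ1 : 1 ≤ Q := by linarith [show (1 : ℝ) ≤ 300 ^ 6 by norm_num]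
  have hQ2 : 2 ≤ Q := by linarith [show (2 : ℝ) ≤ 300 ^ 6 by norm_num]
  have hQpos : 0 < Q := by linarith
  obtain ⟨u, z, m₁, R₁, p⟩ := hpar T Q hQ hlog
    (le_trans (pow_le_pow_right₀ hQ1 (by omega : cp ≤ 9500)) hQT) V k0 del hv2 h21 h10 hV0 a0 a1
    a2 ak hkV hdel hd1
  have hsep : Sep 1 (gQ Q A) := sep_gQ hQ1 hA
  have hV1 : 1 ≤ V 1 := by linarith
  have hV00 : 1 ≤ V 0 := by linarith
  have hR0 : 0 < R₁ := by linarith [p.R1]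
  have hk0 : 0 < k0 := by linarith [p.k1]
  have hm0 : 0 < m₁ := by rw [p.hm]; exact lt_min hk0 (by linarith)
  have hu0 := p.u0
  have hz0 : 0 < z := by linarith [p.z1]
  have hr1 := p.r1
  obtain ⟨X, hX⟩ : ∃ X, X = Q * R₁ + 3 * Q ^ 8 := ⟨_, rfl⟩
  obtain ⟨𝓥, h𝓥⟩ : ∃ 𝓥 : Finset T3, 𝓥 = lt (gQ Q A) X ×ˢ lt (gQ Q A) X ×ˢ lt (gQ Q A) X :=
    ⟨_, rfl⟩
  obtain ⟨𝓗, h𝓗⟩ : ∃ 𝓗 : Finset T3, 𝓗 = (lt (gQ Q A) (Q ^ 2 * V 0) ×ˢ
    lt (gQ Q A) (Q ^ 2 * V 1) ×ˢ lt (gQ Q A) (Q ^ 2 * V 2)).filter (fun h => HF Q A V h) :=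
    ⟨_, rfl⟩
  have hX0 : 0 ≤ X := by rw [hX]; positivity
  have hz𝓥 : (0 : T3) ∈ 𝓥 := by
    rw [h𝓥]
    simp only [Finset.mem_product, Helper38_F5.mem_lt one_pos hsep]
    have e : gQ Q A (0 : ℤ × ℤ) = 0 := map_zero _
    refine ⟨?_, ?_, ?_⟩
    · show ‖gQ Q A (0 : ℤ × ℤ)‖ ≤ X
      rw [e, norm_zero]; exact hX0
    · show ‖gQ Q A (0 : ℤ × ℤ)‖ ≤ X
      rw [e, norm_zero]; exact hX0
    · show ‖gQ Q A (0 : ℤ × ℤ)‖ ≤ X
      rw [e, norm_zero]; exact hX0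
  have hmemV : ∀ (h : Z6) (th : ℝ) (t : Z6) (e₁ e₂ : ℂ) (κ₁ κ₂ κ₃ ω₁ ω₂ : ℝ),
      Pt (Q ^ 8) ((Q * T) ^ 2) 0 (Q ^ 2 * (Rx T / T)) (gQ Q A h.1) (gQ Q A h.2.1) (gQ Q A h.2.2)
        e₁ e₂ (ee th) κ₁ κ₂ κ₃ →
      InZ (Q ^ 8) ((Q * T) ^ 2) (Q * R₁) ω₁ ω₂
        (gQ Q A h.1) (gQ Q A h.2.1) (gQ Q A h.2.2) e₁ e₂ (ee th) κ₁ κ₂ κ₃ (gQ Q A t.1)
        (gQ Q A t.2.1) (gQ Q A t.2.2) → t ∈ 𝓥 := by
    intro h th t e₁ e₂ κ₁ κ₂ κ₃ ω₁ ω₂ pt hz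
    have hcr := InZ.crude pt hz
    rw [h𝓥]
    simp only [Finset.mem_product, Helper38_F5.mem_lt one_pos hsep]
    have h0 : 0 ≤ Q ^ 8 := by positivity
    refine ⟨?_, ?_, ?_⟩
    · rw [hX]; linarith [hcr.1]
    · rw [hX]; linarith [hcr.1, hcr.2.1]
    · rw [hX]; linarith [hcr.1, hcr.2.2.1]
  obtain ⟨Y, hY⟩ : ∃ Y, Y = V 0 ^ 2 * V 1 ^ 2 * (V 2 * (Rx T / T)) := ⟨_, rfl⟩
  have hY0 : 0 ≤ Y := by rw [hY]; positivity
  have hG1 : 1 ≤ V 0 / V 1 := by rw [le_div_iff₀ (by linarith)]; linarith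
  obtain ⟨C, hC⟩ : ∃ C : Fin 3 → ℝ, C = ![Q ^ c3 * (z * m₁ / (R₁ * u ^ 3)),
    Q ^ c3 * (k0 * m₁ / R₁),
    Q ^ c3 * (k0 * m₁ / R₁) * (Ks * (Q ^ 8) ^ 6 * (2 * (Q ^ 40 / u)))] := ⟨_, rfl⟩
  obtain ⟨B, hB⟩ : ∃ B : Fin 3 → ℝ, B = ![Q ^ c0 * Y, Q ^ c1 * Y * ((V 0 / V 1) ^ 2 * u ^ 2),
    Q ^ c2 * Y * ((V 0 / V 1) ^ 2 * u ^ 3)] := ⟨_, rfl⟩
  have hCn : ∀ i ∈ (Finset.univ : Finset (Fin 3)), 0 ≤ C i := by
    intro i _
    rw [hC]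
    have hKs0 : 0 ≤ Ks := by linarith
    fin_cases i
    · show 0 ≤ Q ^ c3 * (z * m₁ / (R₁ * u ^ 3))
      positivity
    · show 0 ≤ Q ^ c3 * (k0 * m₁ / R₁)
      positivity
    · show 0 ≤ Q ^ c3 * (k0 * m₁ / R₁) * (Ks * (Q ^ 8) ^ 6 * (2 * (Q ^ 40 / u)))
      positivity
  have hBn : ∀ i ∈ (Finset.univ : Finset (Fin 3)), 0 ≤ B i := by
    intro i _
    rw [hB]
    fin_cases i
    · show 0 ≤ Q ^ c0 * Y
      positivity
    · show 0 ≤ Q ^ c1 * Y * ((V 0 / V 1) ^ 2 * u ^ 2)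
      positivity
    · show 0 ≤ Q ^ c2 * Y * ((V 0 / V 1) ^ 2 * u ^ 3)
      positivity
  have hHF : ∀ h ∈ 𝓗, HF Q A V h := by
    intro h hh
    rw [h𝓗, Finset.mem_filter] at hh
    exact hh.2
  have key := kcat_of (T := T) (Q := Q) (A := A) (V := V) (k0 := k0) (del := del) (s := s) 𝓗 (by
      intro h k hne
      have hf := hf_of hQ2 hne
      rw [h𝓗, Finset.mem_filter]
      simp only [Finset.mem_product, Helper38_F5.mem_lt one_pos hsep]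
      exact ⟨⟨hf.1, hf.2.1, hf.2.2.1⟩, hf⟩) (Finset.univ : Finset (Fin 3)) C B hCn hBn 𝓥
    (Tt3 T Q A V k0 u z R₁) (by
      intro h _ th
      refine hpt_of hCn ?_
      intro 𝓚 h𝓚
      rw [hC]
      exact pt3 (s := s) hsmt p hA 𝓥 hz𝓥 (hmemV h th) 𝓚 (fun hne =>
        hpwt T Q A V k0 del u z m₁ R₁ s h th p hA 𝓚 hne (fun k hk => (h𝓚 k hk).2))) (by
      intro i _
      rw [hB]
      by_cases hi : i = 0
      · have h1 := hhts T Q A V k0 del u z m₁ R₁ hQ0' p hA 𝓗 𝓥 hHF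
        rw [← hY] at h1
        rw [hi]
        simp only [Tt3, if_pos]
        exact h1
      by_cases hi1 : i = 1
      · have h1 := hwts T Q A V k0 del u z m₁ R₁ hQ1' p hA 𝓗
          (𝓥.filter (fun t => Q ^ 40 / u ≤ ‖gQ Q A t.1‖)) hHF (by
            intro t ht
            rw [Finset.mem_filter] at ht
            exact ht.2)
        rw [← hY] at h1
        refine le_trans (Finset.sum_le_sum fun h _ => ?_) (le_trans h1 (le_of_eq ?_))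
        · rw [Finset.sum_filter]
          refine Finset.sum_le_sum fun t _ => ?_
          rw [Tt3, if_neg hi, if_pos hi1]
          split_ifs
          · exact le_rfl
          · rw [measure_empty]
        · rw [hi1]
          rfl
      · have h1 := hdts T Q A V k0 del u z m₁ R₁ hQ2' p hA 𝓗 hHF
        rw [← hY] at h1
        have hi2 : i = 2 := by
          fin_cases i
          · exact absurd rfl hi
          · exact absurd rfl hi1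
          · rfl
        refine le_trans (Finset.sum_le_sum fun h _ => ?_) (le_trans h1 (le_of_eq ?_))
        · rw [Finset.sum_eq_single_of_mem (0 : Z6) hz𝓥]
          · rw [Tt3, if_neg hi, if_neg hi1, if_pos rfl]
          · intro t _ ht
            rw [Tt3, if_neg hi, if_neg hi1, if_neg ht, measure_empty]
        · rw [hi2]
          rfl)
  unfold KCAt at key ⊢
  refine le_trans key (ENNReal.ofReal_le_ofReal ?_)
  rw [Fin.sum_univ_three, hC, hB]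
  show Q ^ c3 * (z * m₁ / (R₁ * u ^ 3)) * (Q ^ c0 * Y) +
      Q ^ c3 * (k0 * m₁ / R₁) * (Q ^ c1 * Y * ((V 0 / V 1) ^ 2 * u ^ 2)) +
      Q ^ c3 * (k0 * m₁ / R₁) * (Ks * (Q ^ 8) ^ 6 * (2 * (Q ^ 40 / u))) *
        (Q ^ c2 * Y * ((V 0 / V 1) ^ 2 * u ^ 3)) ≤ _
  rw [← p.hm, ← hY]
  have hD : k0 / R₁ ≤ max 1 (k0 / √(V 0 * V 1)) := by
    rcases le_total k0 (√(V 0 * V 1)) with h | h
    · rw [p.hR, min_eq_left h, div_self hk0.ne']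
      exact le_max_left _ _
    · rw [p.hR, min_eq_right h]
      exact le_max_right _ _
  have hW : (V 0 / V 1) ^ 2 ≤ (V 0 / V 1) ^ (5 / 2 : ℝ) := by
    rw [← Real.rpow_natCast (V 0 / V 1) 2]
    exact Real.rpow_le_rpow_of_exponent_le hG1 (by norm_num)
  exact fin3 hc0 hc1 hc2 hc3 hQ hY0 hG1 hm0 hk0 hR0 hu0 hD p.zu (by linarith) hKQ p.u2 hW

end Pool.Agent.F5H.K2.H30
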