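import Pool.Agent.Helper36_F5H.StmtsK2

/-!
MP_f5cbfa_nt, squad F5H, piece of K_NWT: from a triple near the ray to `Pair`, trivial windows.
-/

set_option autoImplicit false

open MeasureTheory Complex ComplexConjugate

namespace Pool.Agent.F5H.K2.H30

open Pool.Agent.Helper68_F5 Pool.Agent.F5H.W36 Pool.Agent.F5H.BC Pool.Agent.BTL Pool.Agent.F5S
  Pool.Agent.F5H

theorem cube_le_of {V S : ℝ} (hV : 1 ≤ V) (hS : 0 < S) (h : V ^ 7 ≤ S ^ 2) : V ^ 3 ≤ S := by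
  have h1 : (V ^ 3) ^ 2 ≤ S ^ 2 := by
    calc (V ^ 3) ^ 2 = V ^ 6 := by ring
      _ ≤ V ^ 7 := pow_le_pow_right₀ hV (by norm_num)
      _ ≤ S ^ 2 := h
  exact le_of_sq_le_sq h1 hS.le

theorem near_win {P R c' V V₃ X₁ X₃ B₁ B₃ D₁ D₃ s₁ s₃ : ℝ} (hP : 1 ≤ P) (hc0 : 0 ≤ c')
    (hc : c' ≤ 2 * R) (hRV : R ≤ V) (hV3 : V₃ ≤ V) (h0 : 0 ≤ V₃) (hs : |s₁ - s₃| ≤ 1)
    (e1 : X₁ = c' * s₁ + D₁ + B₁) (e3 : X₃ = c' * s₃ + D₃ + B₃) (d1 : |D₁| ≤ 2 * P * V)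
    (d3 : |D₃| ≤ 2 * P * V₃) (b1 : |B₁| ≤ 86016 * (P ^ 3 * V)) (b3 : |B₃| ≤ 86016 * (P ^ 3 * V₃)) :
    |X₁ - X₃| ≤ 5 * (10 ^ 5 * P ^ 3 * V) := by
  have hP3 : 1 ≤ P ^ 3 := one_le_pow₀ hP
  have hPP : P ≤ P ^ 3 := le_self_pow₀ hP (by norm_num)
  have hV0 : 0 ≤ V := by linarith
  have e : X₁ - X₃ = c' * (s₁ - s₃) + (D₁ - D₃) + (B₁ - B₃) := by rw [e1, e3]; ring
  rw [e]
  have a1 := abs_add_le (c' * (s₁ - s₃) + (D₁ - D₃)) (B₁ - B₃)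
  have a2 := abs_add_le (c' * (s₁ - s₃)) (D₁ - D₃)
  have a3 := abs_sub D₁ D₃
  have a4 := abs_sub B₁ B₃
  have a5 : |c' * (s₁ - s₃)| ≤ 2 * V := by
    rw [abs_mul, abs_of_nonneg hc0]
    calc c' * |s₁ - s₃| ≤ c' * 1 := mul_le_mul_of_nonneg_left hs hc0
      _ ≤ 2 * V := by linarith
  have a6 : P * V ≤ P ^ 3 * V := mul_le_mul_of_nonneg_right hPP hV0
  have a7 : V ≤ P ^ 3 * V := le_mul_of_one_le_left hV0 hP3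
  have a8 : P * V₃ ≤ P ^ 3 * V := mul_le_mul hPP hV3 h0 (by positivity)
  have a9 : P ^ 3 * V₃ ≤ P ^ 3 * V := mul_le_mul_of_nonneg_left hV3 (by positivity)
  have a10 : 0 ≤ P ^ 3 * V := by positivity
  have a11 : 5 * (10 ^ 5 * P ^ 3 * V) = 500000 * (P ^ 3 * V) := by ring
  rw [a11]
  linarith

/-- from a triple near the ray to `Pair`, trivial windows -/
theorem pair_of_near {g : ℤ × ℤ →+ ℂ} {P R S r V₁ V₂ V₃ t₀ c : ℝ} {v h : T3}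
    {e₁ e₂ e₃ : ℂ} {κ₁ κ₂ κ₃ : ℝ} (hP : 1 ≤ P) (hR : 2400 * P ^ 3 ≤ R)
    (hRV : R ≤ V₂) (hVS : V₁ ^ 3 ≤ S) (h21 : V₂ ≤ V₁) (h32 : V₃ ≤ V₂) (h3 : 0 ≤ V₃)
    (n₁ : ‖g h.1‖ ≤ V₁) (n₂ : ‖g h.2.1‖ ≤ V₂) (n₃ : ‖g h.2.2‖ ≤ V₃) (ht₀ : |sp e₃ (g h.2.2)| ≤ t₀)
    (p : Pt P S 0 r (g h.1) (g h.2.1) (g h.2.2) e₁ e₂ e₃ κ₁ κ₂ κ₃)
    (hn : Near P c e₁ e₂ e₃ (g v.1) (g v.2.1) (g v.2.2)) (hc0 : 0 ≤ c)
    (hlo : R ≤ ‖g v.1‖) (hhi : ‖g v.1‖ ≤ 2 * R) :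
    Pair g (2 * P) R S V₁ V₂ V₃ (5 * (10 ^ 5 * P ^ 3 * V₁) + 16640000 * P ^ 6 * (V₁ / R))
      (5 * (10 ^ 5 * P ^ 3 * V₂) + 16640000 * P ^ 6 * (V₂ / R)) (2 * R * t₀ + 90000 * P ^ 3 * V₃)
      v h := by
  obtain ⟨c', hc'⟩ : ∃ c', c' = ‖g v.1‖ := ⟨_, rfl⟩
  have hP3 : 1 ≤ P ^ 3 := one_le_pow₀ hP
  have hR0 : 0 < R := by linarith
  have hV₂0 : 0 < V₂ := by linarith
  have hV₁0 : 0 < V₁ := by linarith
  have hV₁1 : 1 ≤ V₁ := by linarith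
  have hcc : |c - c'| ≤ P := by
    have h1 := norm_near hc0 p.he₁ hn.n₁
    rw [← hc', abs_sub_comm] at h1
    exact h1
  have hc'0 : 0 < c' := by rw [hc']; linarith
  have hs : Sml (2 * P) S V₁ c' := by
    refine ⟨by linarith, ?_, ?_, hVS⟩
    · rw [hc']
      calc 300 * (2 * P) ^ 3 = 2400 * P ^ 3 := by ring
        _ ≤ R := hR
        _ ≤ _ := hlo
    · rw [hc']; linarith
  have hv : ∀ {e w : ℂ}, ‖e‖ = 1 → ‖w - (c : ℂ) * e‖ ≤ P → ‖w - (c' : ℂ) * e‖ ≤ 2 * P := by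
    intro e w he ha
    have e1 : w - (c' : ℂ) * e = (w - (c : ℂ) * e) + ((c - c' : ℝ) : ℂ) * e := by push_cast; ring
    have e2 : ‖((c - c' : ℝ) : ℂ) * e‖ ≤ P := by
      rw [norm_mul, he, mul_one, Complex.norm_real, Real.norm_eq_abs]; exact hcc
    rw [e1]
    have := norm_add_le (w - (c : ℂ) * e) (((c - c' : ℝ) : ℂ) * e)
    linarith
  have d₁ : Dat (2 * P) S V₁ c' e₁ (g v.1) (g h.1) κ₁ :=
    ⟨p.he₁, p.hκ₁, p.sq₁, n₁, hv p.he₁ hn.n₁⟩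
  have d₂ : Dat (2 * P) S V₁ c' e₂ (g v.2.1) (g h.2.1) κ₂ :=
    ⟨p.he₂, p.hκ₂, p.sq₂, le_trans n₂ h21, hv p.he₂ hn.n₂⟩
  have d₃ : Dat (2 * P) S V₁ c' e₃ (g v.2.2) (g h.2.2) κ₃ :=
    ⟨p.he₃, p.hκ₃, p.sq₃, le_trans n₃ (le_trans h32 h21), hv p.he₃ hn.n₃⟩
  have w₁₂ : 1 ≤ 2 * P * |wd e₁ e₂| := by nlinarith [p.w₁₂, abs_nonneg (wd e₁ e₂)]
  have w₂₃ : 1 ≤ 2 * P * |wd e₂ e₃| := by nlinarith [p.w₂₃, abs_nonneg (wd e₂ e₃)]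
  have w₃₁ : 1 ≤ 2 * P * |wd e₃ e₁| := by nlinarith [p.w₃₁, abs_nonneg (wd e₃ e₁)]
  have htri := tri_of_dat hs d₁ d₂ d₃ w₁₂ w₂₃ w₃₁
  obtain ⟨A, hA⟩ : ∃ A, A = Ah S c' (g v.1) (g v.2.1) (g v.2.2) (g h.1) (g h.2.1) (g h.2.2) :=
    ⟨_, rfl⟩
  have hA₁ : bf A (g v.1) (g v.1) = c' ^ 2 * (1 + ‖g h.1‖ ^ 2 / (4 * S)) := by
    rw [hA]; exact itp_val₁ htri.w12 htri.w23 htri.w31 _ _ _
  have hA₂ : bf A (g v.2.1) (g v.2.1) = c' ^ 2 * (1 + ‖g h.2.1‖ ^ 2 / (4 * S)) := by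
    rw [hA]; exact itp_val₂ htri.w12 htri.w23 htri.w31 _ _ _
  have hA₃ : bf A (g v.2.2) (g v.2.2) = c' ^ 2 * (1 + ‖g h.2.2‖ ^ 2 / (4 * S)) := by
    rw [hA]; exact itp_val₃ htri.w12 htri.w23 htri.w31 _ _ _
  have kE : ∀ x z : ℂ, |bf (A - (1, 0, 1)) x z| ≤ 5376 * (2 * P) ^ 3 / c' * (‖x‖ * ‖z‖) := by
    intro x z
    refine E_bound hs d₁ d₂ d₃ w₁₂ w₂₃ w₃₁ ?_ ?_ ?_ x z
    · rw [bf_sub_left, bf_one, sp_self, hA₁]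
    · rw [bf_sub_left, bf_one, sp_self, hA₂]
    · rw [bf_sub_left, bf_one, sp_self, hA₃]
  have hcR' : c' ≤ 2 * R := by rw [hc']; exact hhi
  have hexp : ∀ (e w H : ℂ), bf A w H = c' * sp e H + sp (w - (c' : ℂ) * e) H +
      bf (A - (1, 0, 1)) w H := by
    intro e w H
    have e2 : w = (c' : ℂ) * e + (w - (c' : ℂ) * e) := by ring
    have e3 : sp w H = c' * sp e H + sp (w - (c' : ℂ) * e) H := by
      conv_lhs => rw [e2]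
      rw [sp_add', sp_real]
    rw [bf_sub_left, bf_one, ← e3]
    ring
  have hB : ∀ {e w H : ℂ} {κ V : ℝ}, Dat (2 * P) S V₁ c' e w H κ → ‖H‖ ≤ V →
      |bf (A - (1, 0, 1)) w H| ≤ 86016 * (P ^ 3 * V) := by
    intro e w H κ V d hH
    have nv := Dat.norm_v_le hs d
    calc |bf (A - (1, 0, 1)) w H| ≤ 5376 * (2 * P) ^ 3 / c' * (‖w‖ * ‖H‖) := kE w H
      _ ≤ 5376 * (2 * P) ^ 3 / c' * (2 * c' * V) :=
          mul_le_mul_of_nonneg_left (mul_le_mul nv hH (norm_nonneg _) (by positivity))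
            (by positivity)
      _ = 86016 * (P ^ 3 * V) := by field_simp; ring
  have hD : ∀ {e w H : ℂ} {κ V : ℝ}, Dat (2 * P) S V₁ c' e w H κ → ‖H‖ ≤ V →
      |sp (w - (c' : ℂ) * e) H| ≤ 2 * P * V := by
    intro e w H κ V d hH
    refine le_trans (abs_sp_le _ _) ?_
    exact mul_le_mul d.hv hH (norm_nonneg _) (by linarith)
  -- the radial components
  have N₂ : ‖g h.2.1‖ ≤ V₁ := le_trans n₂ h21
  have N₃ : ‖g h.2.2‖ ≤ V₁ := le_trans n₃ (le_trans h32 h21)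
  have t1 : κ₁ * sp e₁ (g h.1) = κ₃ * sp e₃ (g h.2.2) := by
    have := abs_le.1 p.t₁
    linarith
  have t2 : κ₂ * sp e₂ (g h.2.1) = κ₃ * sp e₃ (g h.2.2) := by
    have := abs_le.1 p.t₂
    linarith
  have spe : |sp e₃ (g h.2.2)| ≤ V₁ := by
    have := abs_sp_le e₃ (g h.2.2)
    rw [p.he₃, one_mul] at this
    exact le_trans this N₃
  have c1 := t_close hV₁1 hVS p.hκ₁ p.hκ₃ p.sq₁ p.sq₃ (norm_nonneg _) (norm_nonneg _) n₁ N₃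
    spe t1
  have c2 := t_close hV₁1 hVS p.hκ₂ p.hκ₃ p.sq₂ p.sq₃ (norm_nonneg _) (norm_nonneg _) N₂ N₃
    spe t2
  refine ⟨hlo, hhi, by rw [← hc']; exact htri, ?_⟩
  rw [← hc']
  refine ⟨n₁, n₂, n₃, ?_, ?_, ?_⟩
  · rw [← hA]
    have := near_win hP hc'0.le hcR' (le_trans hRV h21) (le_trans h32 h21) h3 c1.1
      (hexp e₁ (g v.1) (g h.1)) (hexp e₃ (g v.2.2) (g h.2.2)) (hD d₁ n₁) (hD d₃ n₃)
      (hB d₁ n₁) (hB d₃ n₃)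
    have h5 : 0 ≤ 16640000 * P ^ 6 * (V₁ / R) := by positivity
    linarith
  · rw [← hA]
    have := near_win hP hc'0.le hcR' hRV h32 h3 c2.1
      (hexp e₂ (g v.2.1) (g h.2.1)) (hexp e₃ (g v.2.2) (g h.2.2)) (hD d₂ n₂) (hD d₃ n₃)
      (hB d₂ n₂) (hB d₃ n₃)
    have h5 : 0 ≤ 16640000 * P ^ 6 * (V₂ / R) := by positivity
    linarith
  · rw [← hA, hexp e₃ (g v.2.2) (g h.2.2)]
    have q2 : |c' * sp e₃ (g h.2.2)| ≤ 2 * R * t₀ := by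
      rw [abs_mul, abs_of_pos hc'0]
      exact mul_le_mul hcR' ht₀ (abs_nonneg _) (by positivity)
    have q3 := hD d₃ n₃
    have q4 := hB d₃ n₃
    have q5 := abs_add_le (c' * sp e₃ (g h.2.2) + sp (g v.2.2 - (c' : ℂ) * e₃) (g h.2.2))
      (bf (A - (1, 0, 1)) (g v.2.2) (g h.2.2))
    have q6 := abs_add_le (c' * sp e₃ (g h.2.2)) (sp (g v.2.2 - (c' : ℂ) * e₃) (g h.2.2))
    have q7 : P * V₃ ≤ P ^ 3 * V₃ :=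
      mul_le_mul_of_nonneg_right (le_self_pow₀ hP (by norm_num)) h3
    have q8 : 0 ≤ P ^ 3 * V₃ := by positivity
    have q9 : 90000 * P ^ 3 * V₃ = 90000 * (P ^ 3 * V₃) := by ring
    rw [q9]
    linarith

end Pool.Agent.F5H.K2.H30
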