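import Pool.Agent.Helper30_F5K.Near

/-!
MP_f5cbfa_nt, squad F5H, row K_NWT: measure of the degenerate set.
-/

set_option autoImplicit false

open MeasureTheory Complex ComplexConjugate

namespace Pool.Agent.F5H.K2.H30

open Pool.Agent.Helper68_F5 Pool.Agent.F5H.W36 Pool.Agent.F5H.BC Pool.Agent.BTL Pool.Agent.F5S
  Pool.Agent.F5H

/-- the angles of a triple near the ray -/
def TS (P S r R lam : ℝ) (H₁ H₂ H₃ v₁ v₂ v₃ : ℂ) : Set ℝ :=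
  {θ | θ ∈ Set.Ioc (-Real.pi) Real.pi ∧ ∃ (e₁ e₂ : ℂ) (κ₁ κ₂ κ₃ c : ℝ),
    Pt P S 0 r H₁ H₂ H₃ e₁ e₂ (ee θ) κ₁ κ₂ κ₃ ∧ R / 2 ≤ c ∧ c ≤ 2 * R ∧
    Near P c e₁ e₂ (ee θ) v₁ v₂ v₃ ∧ |Gm e₁ e₂ (ee θ) H₁ H₂ H₃| ≤ lam}

theorem tset_le {P S r R lam : ℝ} {H₁ H₂ H₃ v₁ v₂ v₃ : ℂ} {V₃ t₀ : ℝ} (hP : 1 ≤ P)
    (hR : 4 * P ≤ R) (hlo : R ≤ ‖v₁‖) (hV₃ : 0 < V₃) (hH : V₃ ≤ P * ‖H₃‖) (hr : 0 ≤ r)
    (ht : t₀ = min r V₃) :
    volume (TS P S r R lam H₁ H₂ H₃ v₁ v₂ v₃) ≤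
      ENNReal.ofReal (min (80 * P / R) (40 * P * (t₀ / V₃))) := by
  by_cases he : (TS P S r R lam H₁ H₂ H₃ v₁ v₂ v₃).Nonempty
  swap
  · rw [Set.not_nonempty_iff_eq_empty] at he
    rw [he, measure_empty]
    exact bot_le
  obtain ⟨θ₀, _, e₁, e₂, κ₁, κ₂, κ₃, c, hp, hc1, hc2, hn, _⟩ := he
  have hR0 : 0 < R := by linarith
  have hv₃ : R / 2 ≤ ‖v₃‖ := by
    have h1 := abs_le.1 (norm_near (by linarith : 0 ≤ c) hp.he₁ hn.n₁)
    have h3 := abs_le.1 (norm_near (by linarith : 0 ≤ c) hp.he₃ hn.n₃)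
    linarith
  have hv₃0 : v₃ ≠ 0 := by
    rw [← norm_pos_iff]; linarith
  have hH0 : 0 < ‖H₃‖ := by
    by_contra h
    have : ‖H₃‖ = 0 := le_antisymm (not_lt.1 h) (norm_nonneg _)
    rw [this] at hH
    linarith
  have hH₃0 : H₃ ≠ 0 := norm_pos_iff.1 hH0
  have m1 : volume (TS P S r R lam H₁ H₂ H₃ v₁ v₂ v₃) ≤ ENNReal.ofReal (80 * P / R) := by
    refine le_trans (measure_mono ?_) (le_trans (circ_wd' hv₃0 (by linarith : 0 ≤ P)) ?_)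
    · rintro θ ⟨hθ, e₁, e₂, κ₁, κ₂, κ₃, c, hp, hc1, hc2, hn, _⟩
      refine ⟨hθ, ?_⟩
      have e1 : wd (ee θ) v₃ = wd (ee θ) (v₃ - (c : ℂ) * ee θ) := by
        rw [wd_sub, wd_real', wd_self]; ring
      rw [e1]
      refine le_trans (abs_wd_le _ _) ?_
      rw [hp.he₃, one_mul]
      exact hn.n₃
    · apply ENNReal.ofReal_le_ofReal
      have : P / ‖v₃‖ ≤ P / (R / 2) := div_le_div_of_nonneg_left (by linarith) (by linarith) hv₃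
      calc 40 * (P / ‖v₃‖) ≤ 40 * (P / (R / 2)) := by linarith
        _ = 80 * P / R := by field_simp; ring
  have m2 : volume (TS P S r R lam H₁ H₂ H₃ v₁ v₂ v₃) ≤
      ENNReal.ofReal (40 * P * (r / V₃)) := by
    refine le_trans (measure_mono ?_) (le_trans (circ' hH₃0 hr) ?_)
    · rintro θ ⟨hθ, e₁, e₂, κ₁, κ₂, κ₃, c, hp, _⟩
      exact ⟨hθ, hp.slab⟩
    · apply ENNReal.ofReal_le_ofReal
      have : r / ‖H₃‖ ≤ P * (r / V₃) := by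
        rw [div_le_iff₀ hH0]
        calc r = r / V₃ * V₃ := by field_simp
          _ ≤ r / V₃ * (P * ‖H₃‖) := mul_le_mul_of_nonneg_left hH (by positivity)
          _ = P * (r / V₃) * ‖H₃‖ := by ring
      linarith
  have m3 : volume (TS P S r R lam H₁ H₂ H₃ v₁ v₂ v₃) ≤ ENNReal.ofReal (40 * P * 1) := by
    refine le_trans (measure_mono (t := Set.Ioc (-Real.pi) Real.pi) ?_) ?_
    · rintro θ ⟨hθ, _⟩
      exact hθ
    · rw [Real.volume_Ioc]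
      apply ENNReal.ofReal_le_ofReal
      have := Real.pi_lt_four
      linarith
  have m4 : volume (TS P S r R lam H₁ H₂ H₃ v₁ v₂ v₃) ≤
      ENNReal.ofReal (40 * P * (t₀ / V₃)) := by
    rw [ht]
    rcases le_total r V₃ with h | h
    · rw [min_eq_left h]; exact m2
    · rw [min_eq_right h, div_self hV₃.ne']; exact m3
  rcases le_total (80 * P / R) (40 * P * (t₀ / V₃)) with h | h
  · rw [min_eq_left h]; exact m1
  · rw [min_eq_right h]; exact m4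

/-- Markov -/
theorem markov_fin {τ : Type} (𝓥 : Finset τ) (T : τ → Set ℝ) (W : Set ℝ) (N : ENNReal)
    (h : ∀ θ ∈ W, N ≤ ∑ v ∈ 𝓥, (T v).indicator (fun _ => (1 : ENNReal)) θ) :
    N * volume W ≤ ∑ v ∈ 𝓥, volume (T v) := by
  obtain ⟨F, hF⟩ : ∃ F : ℝ → ENNReal, F = fun θ => ∑ v ∈ 𝓥,
    (toMeasurable volume (T v)).indicator (fun _ => (1 : ENNReal)) θ := ⟨_, rfl⟩
  have hFm : Measurable F := by
    rw [hF]
    exact Finset.measurable_fun_sum _ fun t _ =>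
      measurable_const.indicator (measurableSet_toMeasurable _ _)
  have hsub : W ⊆ {θ | N ≤ F θ} := by
    intro θ hθ
    refine le_trans (h θ hθ) ?_
    rw [hF]
    refine Finset.sum_le_sum fun t _ => ?_
    exact Set.indicator_le_indicator_of_subset (subset_toMeasurable _ _) (fun _ => zero_le_one) θ
  have h1 := mul_meas_ge_le_lintegral (μ := (volume : Measure ℝ)) hFm N
  have h2 : ∫⁻ θ, F θ = ∑ v ∈ 𝓥, volume (T v) := by
    rw [hF, lintegral_finsetSum _ fun t _ =>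
      measurable_const.indicator (measurableSet_toMeasurable _ _)]
    refine Finset.sum_congr rfl fun t _ => ?_
    rw [lintegral_indicator_const (measurableSet_toMeasurable _ _), one_mul,
      measure_toMeasurable]
  rw [h2] at h1
  exact le_trans (mul_le_mul_right (measure_mono hsub) N) h1

/-- arithmetic of the end -/
theorem nwt_arith {K P L X A w R n m : ℝ} (hP : 1 ≤ P) (hR : 0 < R) (hK : 0 ≤ K)
    (hL : 0 ≤ L) (hX : 0 ≤ X) (hA : 0 ≤ A) (hw : 0 ≤ w)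
    (hm : m ≤ K * P ^ 60 * L * X * n) (hn : n ≤ 400 * (10 ^ 5 * P ^ 3) ^ 4 * (A * (1 + w * R))) :
    m ≤ R / (8 * P) * ((K * (8 * 400 * 10 ^ 20)) * P ^ 100 * L * X * (A * (w + 1 / R))) := by
  have hP0 : 0 < P := by linarith
  have h1 : K * P ^ 60 * L * X * n ≤ K * P ^ 60 * L * X *
      (400 * (10 ^ 5 * P ^ 3) ^ 4 * (A * (1 + w * R))) :=
    mul_le_mul_of_nonneg_left hn (by positivity)
  have e1 : A * (1 + w * R) = R * (A * (w + 1 / R)) := by field_simp; ring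
  obtain ⟨y, hy⟩ : ∃ y, y = A * (w + 1 / R) := ⟨_, rfl⟩
  have hy0 : 0 ≤ y := by rw [hy]; positivity
  rw [e1, ← hy] at h1
  rw [← hy]
  have e2 : K * P ^ 60 * L * X * (400 * (10 ^ 5 * P ^ 3) ^ 4 * (R * y)) =
      P ^ 72 * ((400 * 10 ^ 20) * (K * L * X * (R * y))) := by ring
  have e3 : R / (8 * P) * ((K * (8 * 400 * 10 ^ 20)) * P ^ 100 * L * X * y) =
      P ^ 99 * ((400 * 10 ^ 20) * (K * L * X * (R * y))) := by
    have : P ^ 100 = P * P ^ 99 := by ring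
    rw [this]
    field_simp
  rw [e2] at h1
  rw [e3]
  have h3 : P ^ 72 ≤ P ^ 99 := pow_le_pow_right₀ hP (by norm_num)
  have h4 : P ^ 72 * ((400 * 10 ^ 20) * (K * L * X * (R * y))) ≤
      P ^ 99 * ((400 * 10 ^ 20) * (K * L * X * (R * y))) :=
    mul_le_mul_of_nonneg_right h3 (by positivity)
  linarith

theorem nwt (hwsc : WSCStmt) (hphn : PHNStmt) (hmny : MNYStmt) : NWTStmt := by
  classical
  obtain ⟨K, hK, hW⟩ := hwsc
  refine ⟨K * (8 * 400 * 10 ^ 20), by nlinarith, ?_⟩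
  intro g hg P S r V₁ V₂ V₃ w R hP hcov hR hRV hS hVS hV3 h32 h21 hr hrV hw 𝓗 h𝓗
  have hP0 : 0 < P := by linarith
  have hP3 : 1 ≤ P ^ 3 := one_le_pow₀ hP
  have hPP : P ≤ P ^ 3 := le_self_pow₀ hP (by norm_num)
  have hR0 : 0 < R := by linarith
  have hR1 : 1 ≤ R := by linarith
  have hV₂1 : 1 ≤ V₂ := by linarith
  have hV₁1 : 1 ≤ V₁ := by linarith
  have hV₁0 : 0 < V₁ := by linarith
  have hV₂0 : 0 < V₂ := by linarith
  have hcube := cube_le_of hV₁1 hS hVS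
  obtain ⟨𝓥, h𝓥⟩ : ∃ 𝓥 : Finset T3, 𝓥 = (lt g (3 * R) ×ˢ lt g (3 * R) ×ˢ lt g (3 * R)).filter
    (fun v => R ≤ ‖g v.1‖ ∧ ‖g v.1‖ ≤ 2 * R) := ⟨_, rfl⟩
  obtain ⟨T, hT⟩ : ∃ T : T3 × T3 → Set ℝ, T = fun p => TS P S r R (w * V₁ ^ 3) (g p.2.1)
    (g p.2.2.1) (g p.2.2.2) (g p.1.1) (g p.1.2.1) (g p.1.2.2) := ⟨_, rfl⟩
  -- Markov for one `h`
  have hone : ∀ h : T3, ENNReal.ofReal (R / (8 * P)) *
      volume (Wt P S r (w * V₁ ^ 3) (g h.1) (g h.2.1) (g h.2.2)) ≤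
      ∑ v ∈ 𝓥, volume (T (v, h)) := by
    intro h
    refine markov_fin 𝓥 (fun v => T (v, h)) _ _ ?_
    rintro θ ⟨hθ, e₁, e₂, κ₁, κ₂, κ₃, hp, hG⟩
    obtain ⟨𝓤, hcard, hsub, hU⟩ := hmny g hg P R e₁ e₂ (ee θ) hP (by linarith) hcov hp.he₁ hp.he₂
      hp.he₃
    have hU𝓥 : 𝓤 ⊆ 𝓥.filter (fun v => θ ∈ T (v, h)) := by
      intro v hv
      obtain ⟨a1, a2, c, c1, c2, hn⟩ := hU v hv
      rw [Finset.mem_filter, h𝓥, Finset.mem_filter]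
      refine ⟨⟨hsub hv, a1, a2⟩, ?_⟩
      rw [hT]
      exact ⟨hθ, e₁, e₂, κ₁, κ₂, κ₃, c, hp, c1, c2, hn, hG⟩
    have h2 : ∑ v ∈ 𝓥, (T (v, h)).indicator (fun _ => (1 : ENNReal)) θ =
        ((𝓥.filter (fun v => θ ∈ T (v, h))).card : ENNReal) := by
      rw [Finset.card_filter, Nat.cast_sum]
      refine Finset.sum_congr rfl fun t _ => ?_
      by_cases ht : θ ∈ T (t, h)
      · rw [Set.indicator_of_mem ht, if_pos ht, Nat.cast_one]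
      · rw [Set.indicator_of_notMem ht, if_neg ht, Nat.cast_zero]
    rw [h2]
    calc ENNReal.ofReal (R / (8 * P)) ≤ ENNReal.ofReal (𝓤.card : ℝ) :=
          ENNReal.ofReal_le_ofReal hcard
      _ = (𝓤.card : ENNReal) := ENNReal.ofReal_natCast _
      _ ≤ _ := by exact_mod_cast Finset.card_le_card hU𝓥
  -- the pairs
  obtain ⟨𝓟, h𝓟⟩ : ∃ 𝓟 : Finset (T3 × T3), 𝓟 = (𝓥 ×ˢ 𝓗).filter (fun p => (T p).Nonempty) :=
    ⟨_, rfl⟩
  have hsum : ∑ h ∈ 𝓗, ∑ v ∈ 𝓥, volume (T (v, h)) = ∑ p ∈ 𝓟, volume (T p) := by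
    rw [h𝓟, Finset.sum_filter, ← Finset.sum_product_right' (s := 𝓥) (t := 𝓗)
      (f := fun v h => volume (T (v, h)))]
    refine Finset.sum_congr rfl fun p _ => ?_
    split_ifs with hne
    · rfl
    · rw [Set.not_nonempty_iff_eq_empty] at hne
      show volume (T p) = 0
      rw [hne, measure_empty]
  have hmin : 1 ≤ min r V₃ := le_min hr hV3
  have hdat : ∀ p ∈ 𝓟, (Pair g (2 * P) R S V₁ V₂ V₃
      (5 * (10 ^ 5 * P ^ 3 * V₁) + 16640000 * P ^ 6 * (V₁ / R))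
      (5 * (10 ^ 5 * P ^ 3 * V₂) + 16640000 * P ^ 6 * (V₂ / R))
      (2 * R * min r V₃ + 90000 * P ^ 3 * V₃) p.1 p.2 ∧
      Lev (2 * P) V₂ (21504 * P ^ 6 * (V₁ ^ 3 * (w + 1 / R))) (Cf g p.1) g (g p.1.1) (g p.1.2.1)
        (g p.1.2.2) p.2) ∧
      volume (T p) ≤ ENNReal.ofReal (min (80 * P / R) (40 * P * (min r V₃ / V₃))) := by
    intro p hp
    rw [h𝓟, Finset.mem_filter, Finset.mem_product, h𝓥, Finset.mem_filter] at hp
    obtain ⟨⟨⟨_, lo, hi⟩, hh⟩, hne⟩ := hp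
    obtain ⟨n₁, n₂, n₃, m₂, m₃⟩ := h𝓗 p.2 hh
    have hvol : volume (T p) ≤
        ENNReal.ofReal (min (80 * P / R) (40 * P * (min r V₃ / V₃))) := by
      rw [hT]
      exact tset_le hP (by linarith) lo (by linarith) m₃ (by linarith) rfl
    rw [hT] at hne
    obtain ⟨θ, hθ, e₁, e₂, κ₁, κ₂, κ₃, c, pt, c1, c2, hn, hG⟩ := hne
    have hs : |sp (ee θ) (g p.2.2.2)| ≤ min r V₃ := by
      refine le_min pt.slab ?_
      have := abs_sp_le (ee θ) (g p.2.2.2)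
      rw [pt.he₃, one_mul] at this
      exact le_trans this n₃
    refine ⟨⟨?_, ?_⟩, hvol⟩
    · exact pair_of_near hP (by linarith) hRV hcube h21 h32 (by linarith) n₁ n₂ n₃ hs pt hn
        (by linarith) lo hi
    · have := lev_pos (g := g) (v := p.1) (h := p.2) hP (by linarith : 64 * P ^ 3 ≤ R)
        (by linarith : R ≤ 2 * V₁) hcube h21 h32 hrV n₁ n₂ n₃ m₂ hV₂0 pt hn c1 hG
      have e : w * V₁ ^ 3 + V₁ ^ 3 / R = V₁ ^ 3 * (w + 1 / R) := by ring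
      rw [e] at this
      exact this
  have hω : ∀ {V : ℝ}, 1 ≤ V → 1 ≤ 10 ^ 5 * P ^ 3 * V := by
    intro V hV
    have : 1 ≤ P ^ 3 * V := one_le_mul_of_one_le_of_one_le hP3 hV
    calc (1 : ℝ) ≤ 10 ^ 5 * (P ^ 3 * V) := by linarith
      _ = _ := by ring
  have key := hW g hg P R S V₁ V₂ V₃ r (10 ^ 5 * P ^ 3 * V₁) (10 ^ 5 * P ^ 3 * V₂)
    (V₁ ^ 3 * (w + 1 / R)) (Cf g) hP hR (by linarith) hS hVS hV3 h32 h21 hr (hω hV₁1) (hω hV₂1)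
    (by positivity) 𝓟 (fun p => volume (T p)) (fun p hp => (hdat p hp).1.1)
    (fun p hp => (hdat p hp).1.2) (fun p hp => (hdat p hp).2)
  have hph := hphn (10 ^ 5 * P ^ 3) V₁ V₂ R w (10 ^ 5 * P ^ 3 * V₁) (10 ^ 5 * P ^ 3 * V₂)
    (by linarith) hR1 hRV h21 hw (hω hV₁1) (hω hV₂1) le_rfl le_rfl
  have hl0 : 0 ≤ Real.log V₁ := Real.log_nonneg hV₁1
  have hVm : 0 ≤ V₃ * min r V₃ := mul_nonneg (by linarith) (by linarith)
  obtain ⟨m, hm⟩ : ∃ m, m = K * P ^ 60 * (1 + Real.log V₁) ^ 6 *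
      (V₁ ^ 2 * V₂ ^ 2 * (V₃ * min r V₃)) * PH R V₁ V₂ (10 ^ 5 * P ^ 3 * V₁)
        (10 ^ 5 * P ^ 3 * V₂) (V₁ ^ 3 * (w + 1 / R)) := ⟨_, rfl⟩
  have har := nwt_arith (K := K) (P := P) (L := (1 + Real.log V₁) ^ 6)
    (X := V₁ ^ 2 * V₂ ^ 2 * (V₃ * min r V₃)) (A := (V₁ / V₂) ^ 2) (w := w) (R := R) (m := m)
    (n := PH R V₁ V₂ (10 ^ 5 * P ^ 3 * V₁) (10 ^ 5 * P ^ 3 * V₂) (V₁ ^ 3 * (w + 1 / R)))
    hP hR0 (by linarith) (by positivity) (by positivity) (by positivity) hw (le_of_eq hm) hph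
  rw [← hm] at key
  have hN0 : 0 < R / (8 * P) := by positivity
  have hfin : ENNReal.ofReal (R / (8 * P)) *
      ∑ h ∈ 𝓗, volume (Wt P S r (w * V₁ ^ 3) (g h.1) (g h.2.1) (g h.2.2)) ≤
      ENNReal.ofReal (R / (8 * P)) * ENNReal.ofReal (K * (8 * 400 * 10 ^ 20) * P ^ 100 *
        (1 + Real.log V₁) ^ 6 * (V₁ ^ 2 * V₂ ^ 2 * (V₃ * min r V₃)) *
        ((V₁ / V₂) ^ 2 * (w + 1 / R))) := by
    rw [← ENNReal.ofReal_mul hN0.le, Finset.mul_sum]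
    refine le_trans (Finset.sum_le_sum fun h _ => hone h) ?_
    rw [hsum]
    exact le_trans key (ENNReal.ofReal_le_ofReal har)
  exact (ENNReal.mul_le_mul_iff_right (by
    intro h0
    rw [ENNReal.ofReal_eq_zero] at h0
    linarith) ENNReal.ofReal_ne_top).1 hfin

end Pool.Agent.F5H.K2.H30
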