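import Pool.Agent.Helper36_F5H.StmtsK2
import Pool.Agent.Helper68_F5.Kc3

/-!
MP_f5cbfa_nt, squad F5H, row C_KC2: pieces of the final assembly (hedge for helper36).
-/

set_option autoImplicit false

open MeasureTheory Complex ComplexConjugate

namespace Pool.Agent.F5H.K2.H30

open Pool.Agent.Helper68_F5 Pool.Agent.F5H.W36 Pool.Agent.F5H.BC Pool.Agent.BTL Pool.Agent.F5S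
  Pool.Agent.F5H

/-- the parameters of the assembly -/
structure Par (T Q : ℝ) (V : Fin 3 → ℝ) (k0 del u z m₁ R₁ : ℝ) : Prop where
  hQ : 300 ^ 6 ≤ Q
  hT : 1 ≤ T
  hQT : Q ^ 1000 ≤ T ^ (1 / 100000 : ℝ)
  hlog : 1 + Real.log (Q ^ 2 * V 0) ≤ Q ^ 2
  v2 : Q ^ 1000 ≤ V 2
  v21 : V 2 ≤ V 1
  v10 : V 1 ≤ V 0
  v0 : V 0 ≤ Q * Lx T
  vsq : V 0 ≤ V 1 ^ 2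
  v7 : (Q ^ 2 * V 0) ^ 7 ≤ ((Q * T) ^ 2) ^ 2
  k1 : 1 ≤ k0
  kV : k0 ≤ V 0
  hm : m₁ = min k0 (V 1)
  hR : R₁ = min k0 (√(V 0 * V 1))
  R1 : 1 ≤ R₁
  dk : 1 ≤ del * k0
  d1 : del ≤ 1
  u0 : 0 < u
  u1 : u ≤ 1
  u2 : u ^ 2 ≤ del ^ (2 / 5 : ℝ) + k0 ^ (-(1 / 5) : ℝ)
  uk : 1 ≤ u ^ 2 * k0
  uV : 1 ≤ u ^ 4 * V 1
  uT : Q ^ 200 ≤ u ^ 3 * T ^ (1 / 2 : ℝ)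
  zdel : del * k0 ≤ z
  z1 : 1 ≤ z
  zk : z ≤ k0
  zu : z ≤ u ^ 5 * (V 0 / V 1) * k0
  zr : √R₁ * k0 ≤ z * m₁
  r1 : 1 ≤ Rx T / T
  rV : Q ^ 100 * (Rx T / T) ≤ V 1

/-- the triples `h` -/
def HF (Q : ℝ) (A : ℝ × ℝ × ℝ) (V : Fin 3 → ℝ) (h : T3) : Prop :=
  ‖gQ Q A h.1‖ ≤ Q ^ 2 * V 0 ∧ ‖gQ Q A h.2.1‖ ≤ Q ^ 2 * V 1 ∧ ‖gQ Q A h.2.2‖ ≤ Q ^ 2 * V 2 ∧
    Q ^ 2 * V 1 ≤ Q ^ 8 * ‖gQ Q A h.2.1‖ ∧ Q ^ 2 * V 2 ≤ Q ^ 8 * ‖gQ Q A h.2.2‖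

/-- PAR: existence of the parameters.  PROOF.  `m₁ = min k0 (V 1)`, `R₁ = min k0 √(V 0 * V 1)`,
`u = max (del ^ (1/5)) (k0 ^ (-1/10))`, `z = max del (√R₁ / m₁) * k0`.  `√R₁ ≤ m₁` since `R₁ ≤ k0`
and `R₁ ≤ V 0 ≤ (V 1)²`; `√R₁ / m₁ ≤ u ^ 5 * (V 0 / V 1)`: if `m₁ = k0` it is `≤ k0 ^ (-1/2)`, if
`m₁ = V 1` it is `≤ √k0 / V 1 = k0 ^ (-1/2) * (k0 / V 1)`.  The rest by `qt` as in `kc1stmt`. -/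
def PARStmt : Prop := ∃ c : ℕ, c ≤ 9000 ∧ ∀ T Q : ℝ, 300 ^ 6 ≤ Q →
  Real.log T ≤ Q → Q ^ c ≤ T ^ (1 / 100000 : ℝ) →
  ∀ (V : Fin 3 → ℝ) (k0 del : ℝ), 
    1 ≤ V 2 → V 2 ≤ V 1 → V 1 ≤ V 0 → V 0 ≤ Q * Lx T →
    T ^ (53 / 100 : ℝ) ≤ V 0 → T ^ (1 / 2 : ℝ) ≤ V 1 → T ^ (11 / 25 : ℝ) ≤ V 2 →
    T ^ (11 / 25 : ℝ) ≤ k0 → k0 ≤ V 0 → k0⁻¹ ≤ del → del ≤ 1 →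
    ∃ u z m₁ R₁ : ℝ, Par T Q V k0 del u z m₁ R₁

/-- HTS: sum of the measures for the first alternative.  PROOF.  `kc1` (Kc1.lean) with
`P = Q ^ 8`, `S = (Q T)²`, `δ = 0`, `r = Q² (Rx T / T)`, `R₁ := Q R₁`, `V₁ = Q² V 0`, .., and `E` from
`ERBStmt` with `M = Q ^ 9` (`k0, R₁, z` as they are); compare the end of `kc1stmt`. -/
def HTSStmt : Prop := ∃ c : ℕ, c ≤ 500 ∧ ∃ Q0 : ℝ, ∀ (T Q : ℝ) (A : ℝ × ℝ × ℝ) (V : Fin 3 → ℝ)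
  (k0 del u z m₁ R₁ : ℝ), Q0 ≤ Q → Par T Q V k0 del u z m₁ R₁ → A ∈ KM Q →
  ∀ 𝓗 𝓥 : Finset T3, (∀ h ∈ 𝓗, HF Q A V h) →
  ∑ h ∈ 𝓗, ∑ t ∈ 𝓥, volume (Hit (Q ^ 8) ((Q * T) ^ 2) 0 (Q ^ 2 * (Rx T / T)) (Q * R₁)
    (Q ^ 3 * max 1 (V 0 / z)) (Q ^ 3 * max 1 (V 1 / z)) (gQ Q A h.1) (gQ Q A h.2.1)
    (gQ Q A h.2.2) (gQ Q A t.1) (gQ Q A t.2.1) (gQ Q A t.2.2)) ≤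
  ENNReal.ofReal (Q ^ c * (V 0 ^ 2 * V 1 ^ 2 * (V 2 * (Rx T / T))))

/-- WTS: large vectors, from `LRGStmt` with `w = u ^ 3`, `R₀ = Q ^ 40 / u` and `PHBStmt` with
`M = Q ^ 9`, `V₁ = Q² V 0`, `V₂ = Q² V 1`. -/
def WTSStmt : Prop := ∃ c : ℕ, c ≤ 2000 ∧ ∃ Q0 : ℝ, ∀ (T Q : ℝ) (A : ℝ × ℝ × ℝ) (V : Fin 3 → ℝ)
  (k0 del u z m₁ R₁ : ℝ), Q0 ≤ Q → Par T Q V k0 del u z m₁ R₁ → A ∈ KM Q →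
  ∀ 𝓗 𝓥 : Finset T3, (∀ h ∈ 𝓗, HF Q A V h) → (∀ t ∈ 𝓥, Q ^ 40 / u ≤ ‖gQ Q A t.1‖) →
  ∑ h ∈ 𝓗, ∑ t ∈ 𝓥, volume (HitW (Q ^ 8) ((Q * T) ^ 2) (Q ^ 2 * (Rx T / T)) (Q * R₁)
    (Q ^ 3 * max 1 (V 0 / k0)) (Q ^ 3 * max 1 (V 1 / k0)) (u ^ 3 * (Q ^ 2 * V 0) ^ 3)
    (gQ Q A h.1) (gQ Q A h.2.1) (gQ Q A h.2.2) (gQ Q A t.1) (gQ Q A t.2.1) (gQ Q A t.2.2)) ≤
  ENNReal.ofReal (Q ^ c * (V 0 ^ 2 * V 1 ^ 2 * (V 2 * (Rx T / T))) * ((V 0 / V 1) ^ 2 * u ^ 2))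

/-- DTS: measure of the degenerate set, from `NWTStmt` with `w = u ^ 3`, `R = V₂ = Q² V 1`, and
`CVGStmt`. -/
def DTSStmt : Prop := ∃ c : ℕ, c ≤ 2000 ∧ ∃ Q0 : ℝ, ∀ (T Q : ℝ) (A : ℝ × ℝ × ℝ) (V : Fin 3 → ℝ)
  (k0 del u z m₁ R₁ : ℝ), Q0 ≤ Q → Par T Q V k0 del u z m₁ R₁ → A ∈ KM Q →
  ∀ 𝓗 : Finset T3, (∀ h ∈ 𝓗, HF Q A V h) →
  ∑ h ∈ 𝓗, volume (Wt (Q ^ 8) ((Q * T) ^ 2) (Q ^ 2 * (Rx T / T)) (u ^ 3 * (Q ^ 2 * V 0) ^ 3)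
    (gQ Q A h.1) (gQ Q A h.2.1) (gQ Q A h.2.2)) ≤
  ENNReal.ofReal (Q ^ c * (V 0 ^ 2 * V 1 ^ 2 * (V 2 * (Rx T / T))) * ((V 0 / V 1) ^ 2 * u ^ 3))

/-- PWT: the pointwise alternative, from `VKPStmt` and `DUEStmt`.  PROOF.  Let `B, d` be from
`VKPStmt`, exponent `c`.  If `|Gm(w, H)| > u³ V 0 ³` (`H = hG A (r3 h)`): `|n₀ d₀| ≥ |Gm|` since
`u³ V0³ ≥ Q^c V0³ T^(-1/2)`, `|n₀| ≤ ‖H 0‖ ≤ Q V 0`, so `|d₀| ≥ u³ V0² / Q`; use `DUEStmt` with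
`al = 1 / (2 m₁)`, `be_l = d_l / (2 Q^c V0² z)`: `|be₀ K₀iw₀ + be₁ K₁iw₁| ≤ (|kph| + |sp K (tv B 0)|) /
(2 Q^c V0² z) ≤ Q³` with `tv_comb`.  Otherwise `be₀ = 1 / (2 k0)`, `be₁ = 0`
(one and the same `e₁ e₂ κ` for all `t` in the second alternative: those of `pt_of`). -/
def PWTStmt : Prop := ∃ c : ℕ, c ≤ 200 ∧ ∀ (T Q : ℝ) (A : ℝ × ℝ × ℝ) (V : Fin 3 → ℝ)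
  (k0 del u z m₁ R₁ : ℝ) (s : Bool × Bool) (h : Z6) (th : ℝ),
  Par T Q V k0 del u z m₁ R₁ → A ∈ KM Q → ∀ 𝓚 : Finset Z6, 𝓚.Nonempty →
  (∀ k ∈ 𝓚, th ∈ SK T Q A V k0 del s h k) →
  (∃ Z : Finset Z6, (𝓚.card : ℝ) ≤ Q ^ c * (z * m₁ / (R₁ * u ^ 3)) * Z.card ∧ ∀ t ∈ Z,
    th ∈ Hit (Q ^ 8) ((Q * T) ^ 2) 0 (Q ^ 2 * (Rx T / T)) (Q * R₁)
      (Q ^ 3 * max 1 (V 0 / z)) (Q ^ 3 * max 1 (V 1 / z)) (gQ Q A h.1) (gQ Q A h.2.1)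
      (gQ Q A h.2.2) (gQ Q A t.1) (gQ Q A t.2.1) (gQ Q A t.2.2)) ∨
  (th ∈ Set.Ioc (-Real.pi) Real.pi ∧ ∃ (e₁ e₂ : ℂ) (κ₁ κ₂ κ₃ : ℝ),
    Pt (Q ^ 8) ((Q * T) ^ 2) 0 (Q ^ 2 * (Rx T / T)) (gQ Q A h.1) (gQ Q A h.2.1) (gQ Q A h.2.2)
      e₁ e₂ (ee th) κ₁ κ₂ κ₃ ∧
    |Gm e₁ e₂ (ee th) (gQ Q A h.1) (gQ Q A h.2.1) (gQ Q A h.2.2)| ≤ u ^ 3 * (Q ^ 2 * V 0) ^ 3 ∧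
    ∃ Z : Finset Z6, (𝓚.card : ℝ) ≤ Q ^ c * (k0 * m₁ / R₁) * Z.card ∧ ∀ t ∈ Z,
      InZ (Q ^ 8) ((Q * T) ^ 2) (Q * R₁) (Q ^ 3 * max 1 (V 0 / k0)) (Q ^ 3 * max 1 (V 1 / k0))
      (gQ Q A h.1) (gQ Q A h.2.1) (gQ Q A h.2.2) e₁ e₂ (ee th) κ₁ κ₂ κ₃ (gQ Q A t.1)
      (gQ Q A t.2.1) (gQ Q A t.2.2))

end Pool.Agent.F5H.K2.H30
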